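import Mathlib
import Pool.Agent.W432.PC.Ddx

set_option autoImplicit false

/-!
Connections `D - A` over differential fields: transfer of fundamental matrices and of vanishing
`p`-curvature along intertwining maps.
-/

open Finset Polynomial

namespace Pool.Agent.L5helper79.PCR

section conn

variable {E E' : Type*} [Field E] [Field E']
variable {ι κ : Type*} [Fintype ι] [Fintype κ]

/-- The connection `D - A` on column vectors. -/
def conn (D : Derivation ℤ E E) (A : Matrix ι ι E) (y : ι → E) : ι → E :=
  fun i => D (y i) - ∑ j, A i j * y j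

lemma conn_add (D : Derivation ℤ E E) (A : Matrix ι ι E) (y z : ι → E) :
    conn D A (y + z) = conn D A y + conn D A z := by
  funext i
  simp only [conn, Pi.add_apply, map_add, mul_add, sum_add_distrib]
  ring

/-- The connection as an additive map. -/
def connHom (D : Derivation ℤ E E) (A : Matrix ι ι E) : (ι → E) →+ (ι → E) :=
  AddMonoidHom.mk' (conn D A) (conn_add D A)

lemma connHom_apply (D : Derivation ℤ E E) (A : Matrix ι ι E) (y : ι → E) :
    connHom D A y = conn D A y := rfl

lemma conn_smul (D : Derivation ℤ E E) (A : Matrix ι ι E) (f : E) (y : ι → E) :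
    conn D A (f • y) = D f • y + f • conn D A y := by
  funext i
  simp only [conn, Pi.smul_apply, Pi.add_apply, smul_eq_mul, Derivation.leibniz]
  rw [mul_sub, mul_sum]
  have : ∀ j, A i j * (f * y j) = f * (A i j * y j) := fun j => by ring
  rw [sum_congr rfl fun j _ => this j]
  ring

lemma conn_smul_smul (D : Derivation ℤ E E) (A : Matrix ι ι E) (g : E) (y : ι → E) :
    conn (g • D) (g • A) y = g • conn D A y := by
  funext i
  simp only [conn, Derivation.smul_apply, Matrix.smul_apply, smul_eq_mul, Pi.smul_apply]
  rw [mul_sub, mul_sum]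
  congr 1
  exact sum_congr rfl fun j _ => by ring

/-- The push-forward map `y ↦ ∑ l, m l θ (y (·, l))`. -/
def push {ν : Type*} [Fintype ν] (θ : E' →+* E) (m : ν → E) (y : ι × ν → E') : ι → E :=
  fun i => ∑ l, m l * θ (y (i, l))

/-- The intertwining property. -/
lemma push_conn {ν : Type*} [Fintype ν] (D' : Derivation ℤ E' E') (D : Derivation ℤ E E)
    (θ : E' →+* E) (hθ : ∀ f, D (θ f) = θ (D' f)) (m : ν → E)
    (A' : Matrix (ι × ν) (ι × ν) E') (A : Matrix ι ι E) [DecidableEq ι]
    (hA : ∀ i j k, ∑ l, m l * θ (A' (i, l) (j, k)) = A i j * m k - if i = j then D (m k) else 0)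
    (y : ι × ν → E') :
    push θ m (conn D' A' y) = conn D A (push θ m y) := by
  funext i
  simp only [push, conn]
  have h1 : ∀ l, m l * θ (D' (y (i, l)) - ∑ j, A' (i, l) j * y j) =
      m l * D (θ (y (i, l))) - ∑ j, m l * θ (A' (i, l) j) * θ (y j) := by
    intro l
    rw [map_sub, map_sum, mul_sub, hθ, mul_sum]
    congr 1
    exact sum_congr rfl fun j _ => by rw [map_mul]; ring
  rw [sum_congr rfl fun l _ => h1 l, sum_sub_distrib, sum_comm]
  have h2 : ∀ j : ι × ν, ∑ l, m l * θ (A' (i, l) j) * θ (y j) =
      (A i j.1 * m j.2 - if i = j.1 then D (m j.2) else 0) * θ (y j) := by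
    intro j
    rw [← sum_mul, ← hA i j.1 j.2]
  rw [sum_congr rfl fun j _ => h2 j]
  rw [Fintype.sum_prod_type]
  have h3 : ∀ j, ∑ k, (A i j * m k - if i = j then D (m k) else 0) * θ (y (j, k)) =
      A i j * (∑ k, m k * θ (y (j, k))) - if i = j then ∑ k, D (m k) * θ (y (j, k)) else 0 := by
    intro j
    by_cases hij : i = j
    · simp only [hij, if_true, sub_mul, sum_sub_distrib, mul_sum]
      congr 1
      exact sum_congr rfl fun k _ => by ring
    · simp only [hij, if_false, sub_zero, mul_sum]
      exact sum_congr rfl fun k _ => by ring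
  rw [sum_congr rfl fun j _ => h3 j, sum_sub_distrib, sum_ite_eq, if_pos (mem_univ _), map_sum]
  have h4 : ∀ l, D (m l * θ (y (i, l))) = m l * D (θ (y (i, l))) + D (m l) * θ (y (i, l)) := by
    intro l
    rw [Derivation.leibniz, smul_eq_mul, smul_eq_mul]
    ring
  rw [sum_congr rfl fun l _ => h4 l, sum_add_distrib]
  ring

end conn

section charzero

variable {E E' : Type*} [Field E] [Field E']
variable {ι κ : Type*} [Fintype ι] [Fintype κ] [DecidableEq ι] [DecidableEq κ]

/-- A full set of solutions. -/
def Full (D : Derivation ℤ E E) (A : Matrix ι ι E) : Prop :=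
  ∃ F : Matrix ι ι E, F.det ≠ 0 ∧ ∀ i j, D (F i j) = ∑ l, A i l * F l j

/-- A full set of solutions is transported along an intertwining map. -/
lemma full_push {ν : Type*} [Fintype ν] [DecidableEq ν] (D' : Derivation ℤ E' E')
    (D : Derivation ℤ E E)
    (θ : E' →+* E) (hθ : ∀ f, D (θ f) = θ (D' f)) (m : ν → E) (hm : ∃ l, m l ≠ 0)
    (A' : Matrix (ι × ν) (ι × ν) E') (A : Matrix ι ι E)
    (hA : ∀ i j k, ∑ l, m l * θ (A' (i, l) (j, k)) = A i j * m k - if i = j then D (m k) else 0)
    (h : Full D' A') : Full D A := by
  obtain ⟨F, hF, hFA⟩ := h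
  -- the images of the columns
  set v : ι × ν → (ι → E) := fun c => push θ m (fun j => F j c) with hv
  have hsol : ∀ c, conn D A (v c) = 0 := by
    intro c
    rw [hv]
    simp only
    rw [← push_conn D' D θ hθ m A' A hA]
    have h0 : conn D' A' (fun j => F j c) = 0 := by
      funext i
      simp only [conn, Pi.zero_apply]
      rw [hFA, sub_self]
    rw [h0]
    funext i
    simp [push]
  -- they span
  have hspan : Submodule.span E (Set.range v) = ⊤ := by
    rw [Submodule.eq_top_iff']
    intro z
    obtain ⟨l₀, hl₀⟩ := hm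
    -- z = M w with w supported on l₀
    set w : ι × ν → E := fun j => if j.2 = l₀ then (m l₀)⁻¹ * z j.1 else 0 with hw
    have hunit : IsUnit (F.map θ).det := by
      have : (F.map θ).det = θ F.det := by
        rw [RingHom.map_det]; rfl
      rw [this]
      exact (IsUnit.mk0 _ hF).map θ
    obtain ⟨u, hu⟩ : ∃ u : ι × ν → E, (F.map θ).mulVec u = w := by
      refine ⟨(F.map θ)⁻¹.mulVec w, ?_⟩
      rw [Matrix.mulVec_mulVec, Matrix.mul_nonsing_inv _ hunit, Matrix.one_mulVec]
    have hz : z = ∑ c, u c • v c := by
      funext i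
      rw [Finset.sum_apply]
      simp only [Pi.smul_apply, smul_eq_mul, hv, push]
      have h1 : ∀ c, u c * ∑ l, m l * θ (F (i, l) c) = ∑ l, m l * (θ (F (i, l) c) * u c) := by
        intro c
        rw [mul_sum]
        exact sum_congr rfl fun l _ => by ring
      rw [sum_congr rfl fun c _ => h1 c, sum_comm]
      have h2 : ∀ l, ∑ c, m l * (θ (F (i, l) c) * u c) = m l * w (i, l) := by
        intro l
        rw [← mul_sum, ← hu]
        rfl
      rw [sum_congr rfl fun l _ => h2 l]
      simp only [hw, mul_ite, mul_zero]
      rw [sum_ite_eq' univ l₀, if_pos (mem_univ _)]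
      field_simp
    rw [hz]
    exact Submodule.sum_mem _ fun c _ => Submodule.smul_mem _ _
      (Submodule.subset_span ⟨c, rfl⟩)
  obtain ⟨f, hf1, hf2, hf3⟩ := Submodule.exists_fun_fin_finrank_span_eq E (Set.range v)
  have hr : Module.finrank E (Submodule.span E (Set.range v)) = Fintype.card ι := by
    rw [hspan, finrank_top, Module.finrank_fintype_fun_eq_card]
  let e : ι ≃ Fin (Module.finrank E (Submodule.span E (Set.range v))) :=
    (Fintype.equivFin ι).trans (finCongr hr.symm)
  have hli : LinearIndependent E (fun j : ι => f (e j)) := hf3.comp _ e.injective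
  refine ⟨Matrix.of fun i j => f (e j) i, ?_, ?_⟩
  · have h5 : IsUnit (Matrix.of fun i j => f (e j) i : Matrix ι ι E) := by
      rw [← Matrix.linearIndependent_cols_iff_isUnit]
      exact hli
    rw [Matrix.isUnit_iff_isUnit_det] at h5
    exact h5.ne_zero
  · intro i j
    obtain ⟨c, hc⟩ := hf1 (e j)
    have h6 := congrFun (hsol c) i
    simp only [conn, Pi.zero_apply, sub_eq_zero] at h6
    simp only [Matrix.of_apply, ← hc]
    exact h6

end charzero

section charp

variable {E E' : Type*} [Field E] [Field E']
variable {ι κ : Type*} [Fintype ι] [Fintype κ]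

lemma iterate_conn_smul_horizontal (D : Derivation ℤ E E) (A : Matrix ι ι E) (f : E) (h : ι → E)
    (hh : conn D A h = 0) (m : ℕ) : (conn D A)^[m] (f • h) = (D^[m] f) • h := by
  induction m generalizing f with
  | zero => rfl
  | succ m ih =>
    rw [Function.iterate_succ_apply, conn_smul, hh, smul_zero, add_zero, ih,
      Function.iterate_succ_apply]

/-- divided powers -/
lemma iterate_pow_fact (D : Derivation ℤ E E) (x : E) (hx : D x = 1) (m : ℕ)
    (hm : ∀ i, 0 < i → i ≤ m → (i : E) ≠ 0) : D^[m] (x ^ m / (m.factorial : E)) = 1 := by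
  induction m with
  | zero => simp
  | succ m ih =>
    have hf : ((m + 1).factorial : E) ≠ 0 := by
      have : ∀ n, n ≤ m + 1 → (n.factorial : E) ≠ 0 := by
        intro n hn
        induction n with
        | zero => simp
        | succ n ihn =>
          rw [Nat.factorial_succ, Nat.cast_mul]
          exact mul_ne_zero (hm _ (Nat.succ_pos _) hn) (ihn (by omega))
      exact this _ le_rfl
    have hf' : (m.factorial : E) ≠ 0 := by
      intro h0
      apply hf
      rw [Nat.factorial_succ, Nat.cast_mul, h0, mul_zero]
    have hm1 : ((m + 1 : ℕ) : E) ≠ 0 := hm _ (Nat.succ_pos _) le_rfl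
    rw [Function.iterate_succ_apply]
    have hD : D (x ^ (m + 1) / ((m + 1).factorial : E)) = x ^ m / (m.factorial : E) := by
      rw [div_eq_mul_inv, Derivation.leibniz, Derivation.leibniz_pow]
      have hc : D (((m + 1).factorial : E)⁻¹) = 0 := by
        rw [Derivation.leibniz_inv, Derivation.map_natCast, smul_zero]
      rw [hc, hx, smul_zero, zero_add, Nat.factorial_succ, Nat.cast_mul]
      simp only [smul_eq_mul, nsmul_eq_mul, Nat.add_sub_cancel, mul_one]
      field_simp
    rw [hD]
    exact ih fun i h1 h2 => hm i h1 (by omega)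

/-- If `∇ ^ p = 0` and `(g D) ^ p = 0` then `(g ∇) ^ p = 0`. -/
lemma iterate_smul_conn (D : Derivation ℤ E E) (A : Matrix ι ι E) (x : E) (hx : D x = 1)
    (p : ℕ) (hp : ∀ i, 0 < i → i < p → (i : E) ≠ 0) (h : ∀ y, (conn D A)^[p] y = 0) (g : E)
    (hg : ∀ f, (g • D)^[p] f = 0) (y : ι → E) : (conn (g • D) (g • A))^[p] y = 0 := by
  -- everything is spanned by horizontal vectors
  have key : ∀ m, m ≤ p → ∀ v : ι → E, (conn D A)^[m] v = 0 →
      v ∈ Submodule.span E {w : ι → E | conn D A w = 0} := by
    intro m
    induction m with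
    | zero =>
      intro _ v hv
      rw [show v = 0 from hv]
      exact Submodule.zero_mem _
    | succ m ih =>
      intro hm v hv
      set u := (conn D A)^[m] v with hu
      have hu0 : conn D A u = 0 := by
        rw [hu, ← Function.iterate_succ_apply' (conn D A) m v]; exact hv
      set f := x ^ m / (m.factorial : E) with hf
      have h1 : (conn D A)^[m] (v - f • u) = 0 := by
        have h2 : (connHom D A)^[m] (v - f • u) =
            (connHom D A)^[m] v - (connHom D A)^[m] (f • u) := iterate_map_sub _ _ _ _
        have h3 : ⇑(connHom D A) = conn D A := rfl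
        rw [h3] at h2
        rw [h2, iterate_conn_smul_horizontal D A f u hu0, hf,
          iterate_pow_fact D x hx m (fun i h1 h2 => hp i h1 (by omega)), one_smul, ← hu, sub_self]
      have h4 := ih (by omega) _ h1
      have h5 : v = (v - f • u) + f • u := by rw [sub_add_cancel]
      rw [h5]
      exact Submodule.add_mem _ h4 (Submodule.smul_mem _ _ (Submodule.subset_span hu0))
  have hy := key p le_rfl y (h y)
  have hlin : ∀ a b : ι → E, (conn (g • D) (g • A))^[p] (a + b) =
      (conn (g • D) (g • A))^[p] a + (conn (g • D) (g • A))^[p] b := by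
    intro a b
    exact iterate_map_add (connHom (g • D) (g • A)) p a b
  have hsm : ∀ w : ι → E, conn D A w = 0 → ∀ f : E,
      (conn (g • D) (g • A))^[p] (f • w) = 0 := by
    intro w hw f
    rw [iterate_conn_smul_horizontal, hg, zero_smul]
    rw [conn_smul_smul, hw, smul_zero]
  have hall : ∀ z ∈ Submodule.span E {w : ι → E | conn D A w = 0}, ∀ f : E,
      (conn (g • D) (g • A))^[p] (f • z) = 0 := by
    intro z hz
    induction hz using Submodule.span_induction with
    | mem w hw => exact hsm w hw
    | zero =>
      intro f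
      rw [smul_zero]
      exact iterate_map_zero (connHom (g • D) (g • A)) p
    | add a b _ _ ha hb =>
      intro f
      rw [smul_add, hlin, ha f, hb f, add_zero]
    | smul c w _ hw =>
      intro f
      rw [smul_smul]
      exact hw _
  have := hall y hy 1
  rwa [one_smul] at this

end charp

end Pool.Agent.L5helper79.PCR
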