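import Mathlib
import Pool.Agent.W432.PC.Ddx

set_option autoImplicit false

/-!
The system `f' = (b / t + c / (t - 1)) f`, its `p`-curvature and its algebraic solutions.
-/

open Pool.Agent.W432.PC

namespace Pool.Agent.L5helper79.PCR

section

variable {k : Type*} [Field k] {ι : Type*}

/-- The matrix `b / t + c / (t - 1)` over `k(t)`. -/
noncomputable def sysMat (b c : Matrix ι ι k) : Matrix ι ι (RatFunc k) :=
  Matrix.of fun i j => RatFunc.C (b i j) / RatFunc.X + RatFunc.C (c i j) / (RatFunc.X - 1)

/-- The connection `∇ = d/dt - (b / t + c / (t - 1))` on column vectors over `k(t)`. -/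
noncomputable def nabla [Fintype ι] (b c : Matrix ι ι k) (y : ι → RatFunc k) : ι → RatFunc k :=
  fun i => ddx k (y i) - ∑ j, sysMat b c i j * y j

/-- The `p`-curvature `∇ ^ p` vanishes, `p` the characteristic of `k`. -/
def PCurvZero [Fintype ι] (b c : Matrix ι ι k) : Prop :=
  ∀ y : ι → RatFunc k, (nabla b c)^[ringChar k] y = 0

end

/-- The matrix `b / n`, the entries of `b` being mapped to the field `k` by `φ`. -/
def redMat {R k : Type*} [CommRing R] [Field k] {ι : Type*} (φ : R →+* k) (n : ℕ)
    (b : Matrix ι ι R) : Matrix ι ι k :=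
  Matrix.of fun i j => φ (b i j) / (n : k)

/-- The system `f' = (b / t + c / (t - 1)) f` has a full set of algebraic solutions: there are
an extension `δ` of `d/dt` to the algebraic closure of `ℂ(t)` and an invertible matrix `F` over
this field with `δ F = (b / t + c / (t - 1)) F`. -/
def AlgSol {ι : Type*} [Fintype ι] [DecidableEq ι] (b c : Matrix ι ι ℂ) : Prop :=
  ∃ (δ : Derivation ℂ (AlgebraicClosure (RatFunc ℂ)) (AlgebraicClosure (RatFunc ℂ)))
    (F : Matrix ι ι (AlgebraicClosure (RatFunc ℂ))),
    δ (algebraMap (RatFunc ℂ) (AlgebraicClosure (RatFunc ℂ)) RatFunc.X) = 1 ∧ F.det ≠ 0 ∧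
    F.map δ = (sysMat b c).map (algebraMap (RatFunc ℂ) (AlgebraicClosure (RatFunc ℂ))) * F

end Pool.Agent.L5helper79.PCR
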