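import Mathlib

set_option autoImplicit false

/-!
The residue matrices of the push-forward along `t = j(s) = 4 (s² - s + 1)³ / (27 s² (s - 1)²)`.
-/

open Finset Matrix
open scoped Kronecker

namespace Pool.Agent.L5helper79.PCR

/-- `108` times a residue matrix. -/
def MU : Matrix (Fin 6) (Fin 6) ℤ :=
  !![-8, 20, 16, 8, 16, 20;
    -28, -68, -28, -8, -40, -44;
    52, 92, 28, 20, 88, 80;
    -80, -88, -20, -28, -92, -52;
    44, 40, 8, 28, 68, 28;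
    -20, -16, -8, -16, -20, 8]

/-- `108` times a residue matrix. -/
def MU2 : Matrix (Fin 6) (Fin 6) ℤ :=
  !![-46, -20, -16, -8, -16, -20;
    55, 14, 28, 8, 40, 44;
    110, 70, 26, 34, 20, 55;
    -55, -20, -34, -26, -70, -110;
    -44, -40, -8, -28, -14, -55;
    20, 16, 8, 16, 20, 46]

/-- `108` times a residue matrix. -/
def MW : Matrix (Fin 6) (Fin 6) ℤ :=
  !![-40, -20, -4, 4, 20, 40;
    88, 20, -8, -16, -56, -100;
    -124, -32, -4, 16, 104, 184;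
    104, 16, -4, -32, -124, -176;
    -56, -16, -8, 20, 88, 116;
    20, 4, -4, -20, -40, -32]

/-- `108` times a residue matrix. -/
def MW2 : Matrix (Fin 6) (Fin 6) ℤ :=
  !![40, 20, 4, -4, -20, -40;
    -34, -20, 8, 16, 56, 100;
    -119, -49, -23, 11, 31, 86;
    31, 11, -23, -49, -119, -229;
    56, 16, 8, -20, -34, -89;
    -20, -4, 4, 20, 40, 86]


/-- The matrix `diag(0, 1, ..., 5)`. -/
def MK : Matrix (Fin 6) (Fin 6) ℤ := Matrix.diagonal fun k => (k : ℤ)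

section relations

variable {ι : Type*} [Fintype ι] [DecidableEq ι]

/-- `108 n` times the residue at `0` of the push-forward of the system with residues
`b₀ / n`, `c₀ / n`. -/
def pushB (n : ℤ) (b c : Matrix ι ι ℤ) : Matrix (ι × Fin 6) (ι × Fin 6) ℤ :=
  b ⊗ₖ MU + c ⊗ₖ MW - n • ((1 : Matrix ι ι ℤ) ⊗ₖ (MU * MK))

/-- `108 n` times the residue at `1` of the push-forward. -/
def pushC (n : ℤ) (b c : Matrix ι ι ℤ) : Matrix (ι × Fin 6) (ι × Fin 6) ℤ :=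
  b ⊗ₖ MU2 + c ⊗ₖ MW2 - n • ((1 : Matrix ι ι ℤ) ⊗ₖ (MU2 * MK))

lemma expand3 (n : ℤ) (b c : Matrix ι ι ℤ) (U W V₀ V₁ V₂ : Matrix (Fin 6) (Fin 6) ℤ)
    (h1 : V₀ * V₁ * V₂ = 0)
    (hb : U * V₁ * V₂ + V₀ * U * V₂ + V₀ * V₁ * U = 0)
    (hc : W * V₁ * V₂ + V₀ * W * V₂ + V₀ * V₁ * W = 0)
    (hbb : U * U * V₂ + U * V₁ * U + V₀ * U * U = 0)
    (hbc : U * W * V₂ + U * V₁ * W + V₀ * U * W = 0)
    (hcb : W * U * V₂ + W * V₁ * U + V₀ * W * U = 0)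
    (hcc : W * W * V₂ + W * V₁ * W + V₀ * W * W = 0)
    (hbbb : U * U * U = 0) (hbbc : U * U * W = 0) (hbcb : U * W * U = 0) (hbcc : U * W * W = 0)
    (hcbb : W * U * U = 0) (hcbc : W * U * W = 0) (hccb : W * W * U = 0) (hccc : W * W * W = 0) :
    (b ⊗ₖ U + c ⊗ₖ W + n • ((1 : Matrix ι ι ℤ) ⊗ₖ V₀)) *
      (b ⊗ₖ U + c ⊗ₖ W + n • ((1 : Matrix ι ι ℤ) ⊗ₖ V₁)) *
      (b ⊗ₖ U + c ⊗ₖ W + n • ((1 : Matrix ι ι ℤ) ⊗ₖ V₂)) = 0 := by
  simp only [Matrix.add_mul, Matrix.mul_add, Matrix.smul_mul, Matrix.mul_smul,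
    ← Matrix.mul_kronecker_mul, Matrix.one_mul, Matrix.mul_one, hbbb, hbbc, hbcb, hbcc, hcbb,
    hcbc, hccb, hccc, Matrix.kronecker_zero, h1, smul_zero, add_zero, zero_add]
  have e1 := congrArg (fun T => b ⊗ₖ T) hb
  have e2 := congrArg (fun T => c ⊗ₖ T) hc
  have e3 := congrArg (fun T => (b * b) ⊗ₖ T) hbb
  have e4 := congrArg (fun T => (b * c) ⊗ₖ T) hbc
  have e5 := congrArg (fun T => (c * b) ⊗ₖ T) hcb
  have e6 := congrArg (fun T => (c * c) ⊗ₖ T) hcc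
  simp only [Matrix.kronecker_add, Matrix.kronecker_zero] at e1 e2 e3 e4 e5 e6
  linear_combination (norm := module) (n * n) • e1 + (n * n) • e2 + n • e3 + n • e4 + n • e5 + n • e6

lemma expand2 (n : ℤ) (b c : Matrix ι ι ℤ) (U W V₀ V₁ : Matrix (Fin 6) (Fin 6) ℤ)
    (h1 : V₀ * V₁ = 0)
    (hb : U * V₁ + V₀ * U = 0)
    (hc : W * V₁ + V₀ * W = 0)
    (hbb : U * U = 0) (hbc : U * W = 0) (hcb : W * U = 0) (hcc : W * W = 0) :
    (b ⊗ₖ U + c ⊗ₖ W + n • ((1 : Matrix ι ι ℤ) ⊗ₖ V₀)) *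
      (b ⊗ₖ U + c ⊗ₖ W + n • ((1 : Matrix ι ι ℤ) ⊗ₖ V₁)) = 0 := by
  simp only [Matrix.add_mul, Matrix.mul_add, Matrix.smul_mul, Matrix.mul_smul,
    ← Matrix.mul_kronecker_mul, Matrix.one_mul, Matrix.mul_one, hbb, hbc, hcb, hcc,
    Matrix.kronecker_zero, h1, smul_zero, add_zero, zero_add]
  have e1 := congrArg (fun T => b ⊗ₖ T) hb
  have e2 := congrArg (fun T => c ⊗ₖ T) hc
  simp only [Matrix.kronecker_add, Matrix.kronecker_zero] at e1 e2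
  linear_combination (norm := module) n • e1 + n • e2

theorem pushB_rel (n : ℤ) (b c : Matrix ι ι ℤ) :
    pushB n b c * (pushB n b c + (36 * n) • 1) * (pushB n b c + (72 * n) • 1) = 0 := by
  have h0 : pushB n b c = b ⊗ₖ MU + c ⊗ₖ MW + n • ((1 : Matrix ι ι ℤ) ⊗ₖ (-(MU * MK))) := by
    rw [pushB, sub_eq_add_neg, ← smul_neg]
    congr 2
    ext i j
    simp [Matrix.kroneckerMap_apply]
  have h1 : ∀ a : ℤ, pushB n b c + (a * n) • 1 =
      b ⊗ₖ MU + c ⊗ₖ MW + n • ((1 : Matrix ι ι ℤ) ⊗ₖ (-(MU * MK) + a • 1)) := by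
    intro a
    rw [h0, add_assoc, Matrix.kronecker_add, smul_add]
    congr 2
    rw [Matrix.kronecker_smul, Matrix.one_kronecker_one, smul_smul, mul_comm]
  rw [h1, h1, h0]
  apply expand3 <;> decide +kernel

theorem pushC_rel (n : ℤ) (b c : Matrix ι ι ℤ) :
    pushC n b c * (pushC n b c + (54 * n) • 1) = 0 := by
  have h0 : pushC n b c = b ⊗ₖ MU2 + c ⊗ₖ MW2 + n • ((1 : Matrix ι ι ℤ) ⊗ₖ (-(MU2 * MK))) := by
    rw [pushC, sub_eq_add_neg, ← smul_neg]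
    congr 2
    ext i j
    simp [Matrix.kroneckerMap_apply]
  have h1 : ∀ a : ℤ, pushC n b c + (a * n) • 1 =
      b ⊗ₖ MU2 + c ⊗ₖ MW2 + n • ((1 : Matrix ι ι ℤ) ⊗ₖ (-(MU2 * MK) + a • 1)) := by
    intro a
    rw [h0, add_assoc, Matrix.kronecker_add, smul_add]
    congr 2
    rw [Matrix.kronecker_smul, Matrix.one_kronecker_one, smul_smul, mul_comm]
  rw [h1, h0]
  apply expand2 <;> decide +kernel

end relations

section identities

variable {R : Type*} [CommRing R]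

/-- `S = (s - 2) (s + 1) (2 s - 1)`. -/
def pS (s : R) : R := (s - 2) * (s + 1) * (2 * s - 1)

/-- `Q = s ^ 2 - s + 1`. -/
def pQ (s : R) : R := s ^ 2 - s + 1

lemma SQ (s : R) : 4 * pQ s ^ 3 - 27 * (s ^ 2 * (s - 1) ^ 2) = pS s ^ 2 := by
  unfold pS pQ
  ring

lemma U_id (s : R) (k : Fin 6) :
    ∑ l : Fin 6, s ^ (l : ℕ) * ((MU l k : R) * pS s ^ 2 + 4 * (MU2 l k : R) * pQ s ^ 3) =
      108 * (s - 1) * s ^ (k : ℕ) * pQ s * pS s := by
  fin_cases k <;>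
  · simp [Fin.sum_univ_six, MU, MU2, pS, pQ]
    ring

lemma W_id (s : R) (k : Fin 6) :
    ∑ l : Fin 6, s ^ (l : ℕ) * ((MW l k : R) * pS s ^ 2 + 4 * (MW2 l k : R) * pQ s ^ 3) =
      108 * s * s ^ (k : ℕ) * pQ s * pS s := by
  fin_cases k <;>
  · simp [Fin.sum_univ_six, MW, MW2, pS, pQ]
    ring

end identities

end Pool.Agent.L5helper79.PCR
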