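import Mathlib
import Pool.Agent.W432.PC.Ddx

set_option autoImplicit false

/-!
Substitution `t ↦ N / D` in rational functions.
-/

open Finset Polynomial

namespace Pool.Agent.L5helper79.PCR

section lin

variable {k : Type*} [Field k]

/-- `1, X, ..., X ^ (d - 1)` are linearly independent over `k(N / D)`, `d = deg N`. -/
lemma sum_zero {d : ℕ} (N Dn : k[X]) (hN : N.degree = d) (hcop : IsCoprime N Dn)
    (hD : Dn ≠ 0) (M : ℕ) : ∀ a : Fin d → k[X], (∀ l, ∀ m, M ≤ m → (a l).coeff m = 0) →
    ∑ l : Fin d, (RatFunc.X : RatFunc k) ^ (l : ℕ) *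
      aeval (algebraMap k[X] (RatFunc k) N / algebraMap k[X] (RatFunc k) Dn) (a l) = 0 →
    ∀ l, a l = 0 := by
  have hinj : Function.Injective (algebraMap k[X] (RatFunc k)) :=
    IsFractionRing.injective k[X] (RatFunc k)
  have hN0 : N ≠ 0 := by
    intro h
    rw [h, degree_zero] at hN
    exact absurd hN (by simp)
  have hD' : algebraMap k[X] (RatFunc k) Dn ≠ 0 := by
    rw [Ne, map_eq_zero_iff _ hinj]; exact hD
  have hN' : algebraMap k[X] (RatFunc k) N ≠ 0 := by
    rw [Ne, map_eq_zero_iff _ hinj]; exact hN0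
  set j := algebraMap k[X] (RatFunc k) N / algebraMap k[X] (RatFunc k) Dn with hj
  induction M with
  | zero =>
    intro a ha _ l
    ext m
    rw [ha l m (Nat.zero_le _), coeff_zero]
  | succ M ih =>
    intro a ha hs
    have h1 : ∀ l, algebraMap k[X] (RatFunc k) Dn ^ M * aeval j (a l) =
        algebraMap k[X] (RatFunc k)
          (∑ m ∈ range (M + 1), C ((a l).coeff m) * N ^ m * Dn ^ (M - m)) := by
      intro l
      have hnd : (a l).natDegree < M + 1 := by
        rw [Nat.lt_succ_iff, natDegree_le_iff_coeff_eq_zero]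
        intro m hm
        exact ha l m hm
      rw [aeval_eq_sum_range' hnd, map_sum, mul_sum]
      refine sum_congr rfl fun m hm => ?_
      have hm' : m ≤ M := Nat.lt_succ_iff.1 (mem_range.1 hm)
      rw [map_mul, map_mul, map_pow, map_pow, Algebra.smul_def, hj, div_pow,
        RatFunc.algebraMap_C, RatFunc.algebraMap_eq_C]
      obtain ⟨q, rfl⟩ := Nat.exists_eq_add_of_le hm'
      rw [Nat.add_sub_cancel_left, pow_add]
      field_simp
    have h2 : ∑ l : Fin d, (X : k[X]) ^ (l : ℕ) *
        (∑ m ∈ range (M + 1), C ((a l).coeff m) * N ^ m * Dn ^ (M - m)) = 0 := by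
      apply hinj
      rw [map_zero, map_sum]
      have : ∑ l, algebraMap k[X] (RatFunc k) ((X : k[X]) ^ ((l : Fin d) : ℕ) *
          (∑ m ∈ range (M + 1), C ((a l).coeff m) * N ^ m * Dn ^ (M - m))) =
          algebraMap k[X] (RatFunc k) Dn ^ M *
          ∑ l, (RatFunc.X : RatFunc k) ^ ((l : Fin d) : ℕ) * aeval j (a l) := by
        rw [mul_sum]
        refine sum_congr rfl fun l _ => ?_
        rw [map_mul, ← h1, map_pow, RatFunc.algebraMap_X]
        ring
      rw [this, hs, mul_zero]
    have h3 : N ∣ (∑ l : Fin d, C ((a l).coeff 0) * (X : k[X]) ^ (l : ℕ)) * Dn ^ M := by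
      have h4 : ∀ l : Fin d, (X : k[X]) ^ (l : ℕ) *
          (∑ m ∈ range (M + 1), C ((a l).coeff m) * N ^ m * Dn ^ (M - m)) =
          C ((a l).coeff 0) * (X : k[X]) ^ (l : ℕ) * Dn ^ M +
          N * ((X : k[X]) ^ (l : ℕ) *
            ∑ m ∈ range M, C ((a l).coeff (m + 1)) * N ^ m * Dn ^ (M - (m + 1))) := by
        intro l
        rw [sum_range_succ']
        have : ∑ m ∈ range M, C ((a l).coeff (m + 1)) * N ^ (m + 1) * Dn ^ (M - (m + 1)) =
            N * ∑ m ∈ range M, C ((a l).coeff (m + 1)) * N ^ m * Dn ^ (M - (m + 1)) := by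
          rw [mul_sum]
          exact sum_congr rfl fun m _ => by ring
        rw [this]
        simp only [pow_zero, mul_one, Nat.sub_zero]
        ring
      rw [sum_congr rfl fun l _ => h4 l, sum_add_distrib, ← sum_mul, ← mul_sum] at h2
      exact ⟨_, by rw [eq_neg_of_add_eq_zero_left h2, ← mul_neg]⟩
    have h5 : N ∣ ∑ l : Fin d, C ((a l).coeff 0) * (X : k[X]) ^ (l : ℕ) :=
      (hcop.pow_right).dvd_of_dvd_mul_right h3
    have h6 : ∑ l : Fin d, C ((a l).coeff 0) * (X : k[X]) ^ (l : ℕ) = 0 := by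
      by_contra hne
      have h7 := degree_le_of_dvd h5 hne
      have h8 : (∑ l : Fin d, C ((a l).coeff 0) * (X : k[X]) ^ (l : ℕ)).degree < d := by
        exact degree_sum_fin_lt fun l : Fin d => (a l).coeff 0
      rw [hN] at h7
      exact absurd h7 (not_le.2 h8)
    have h9 : ∀ l : Fin d, (a l).coeff 0 = 0 := by
      intro l
      have := congrArg (fun q => q.coeff (l : ℕ)) h6
      simp only [finsetSum_coeff, coeff_C_mul, coeff_X_pow, coeff_zero] at this
      rw [Finset.sum_eq_single l] at this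
      · simpa using this
      · intro b _ hb
        rw [if_neg, mul_zero]
        intro h
        exact hb (Fin.ext h.symm)
      · intro h; exact absurd (mem_univ _) h
    have h10 : ∀ l, a l = X * divX (a l) := by
      intro l
      conv_lhs => rw [← X_mul_divX_add (a l), h9 l, C_0, add_zero]
    have h11 : ∀ l, divX (a l) = 0 := by
      apply ih
      · intro l m hm
        rw [coeff_divX]
        exact ha l _ (by omega)
      · have hj0 : j ≠ 0 := div_ne_zero hN' hD'
        have : j * ∑ l, (RatFunc.X : RatFunc k) ^ ((l : Fin d) : ℕ) * aeval j (divX (a l)) = 0 := by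
          rw [← hs, mul_sum]
          refine sum_congr rfl fun l _ => ?_
          conv_rhs => rw [h10 l, map_mul, aeval_X]
          ring
        exact (mul_eq_zero.1 this).resolve_left hj0
    intro l
    rw [h10 l, h11 l, mul_zero]

end lin

section theta

variable {k : Type*} [Field k] {E : Type*} [Field E] [Algebra k E]

lemma algHom_algebraMap (θ : RatFunc k →ₐ[k] E) (p : k[X]) :
    θ (algebraMap k[X] (RatFunc k) p) = aeval (θ RatFunc.X) p := by
  have h1 : algebraMap k[X] (RatFunc k) p = aeval (RatFunc.X : RatFunc k) p := by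
    rw [← RatFunc.algebraMap_X, Polynomial.aeval_algebraMap_apply, aeval_X_left_apply]
  rw [h1, ← Polynomial.aeval_algHom_apply]

lemma der_theta (θ : RatFunc k →ₐ[k] E) (D : Derivation k E E) (f : RatFunc k) :
    D (θ f) = D (θ RatFunc.X) * θ (Pool.Agent.W432.PC.ddx k f) := by
  have hpol : ∀ p : k[X], D (θ (algebraMap k[X] (RatFunc k) p)) =
      D (θ RatFunc.X) * θ (Pool.Agent.W432.PC.ddx k (algebraMap k[X] (RatFunc k) p)) := by
    intro p
    rw [Pool.Agent.W432.PC.ddx_algebraMap, algHom_algebraMap, algHom_algebraMap,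
      Derivation.map_aeval, smul_eq_mul, mul_comm]
  obtain ⟨a, b, hb, hab⟩ := IsFractionRing.div_surjective (A := k[X]) f
  have hb0 : algebraMap k[X] (RatFunc k) b ≠ 0 := by
    exact IsFractionRing.to_map_ne_zero_of_mem_nonZeroDivisors hb
  have hf : f * algebraMap k[X] (RatFunc k) b = algebraMap k[X] (RatFunc k) a := by
    rw [← hab]; field_simp
  have hθb : θ (algebraMap k[X] (RatFunc k) b) ≠ 0 := by
    rw [Ne, map_eq_zero]; exact hb0
  have h1 : D (θ (f * algebraMap k[X] (RatFunc k) b)) =
      D (θ (algebraMap k[X] (RatFunc k) a)) := by rw [hf]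
  have h2 : D (θ RatFunc.X) * θ (Pool.Agent.W432.PC.ddx k (f * algebraMap k[X] (RatFunc k) b)) =
      D (θ RatFunc.X) * θ (Pool.Agent.W432.PC.ddx k (algebraMap k[X] (RatFunc k) a)) := by rw [hf]
  rw [← hpol a, ← h1, Derivation.leibniz, map_mul θ f, Derivation.leibniz, map_add, smul_eq_mul,
    smul_eq_mul, smul_eq_mul, smul_eq_mul, map_mul, map_mul, hpol b] at h2
  apply mul_right_cancel₀ hθb
  linear_combination -h2

/-- The substitution `X ↦ x` for `x` transcendental. -/
noncomputable def theta (x : E) (hx : Function.Injective (aeval x : k[X] →ₐ[k] E)) :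
    RatFunc k →ₐ[k] E :=
  RatFunc.liftAlgHom (aeval x) (nonZeroDivisors_le_comap_nonZeroDivisors_of_injective _ hx)

lemma theta_algebraMap (x : E) (hx : Function.Injective (aeval x : k[X] →ₐ[k] E)) (p : k[X]) :
    theta x hx (algebraMap k[X] (RatFunc k) p) = aeval x p := by
  have := RatFunc.liftAlgHom_apply_div (aeval x : k[X] →ₐ[k] E)
    (nonZeroDivisors_le_comap_nonZeroDivisors_of_injective _ hx) p 1
  rw [map_one, div_one, map_one, div_one] at this
  exact this

lemma theta_X (x : E) (hx : Function.Injective (aeval x : k[X] →ₐ[k] E)) :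
    theta x hx RatFunc.X = x := by
  rw [← RatFunc.algebraMap_X, theta_algebraMap, aeval_X]

end theta

section pder

open Pool.Agent.W432.PC

variable {M₁ M₂ M₃ : Type*} [AddCommGroup M₁] [AddCommGroup M₂] [AddCommGroup M₃]

lemma leib_iter (d₁ : M₁ →+ M₁) (d₂ : M₂ →+ M₂) (d₃ : M₃ →+ M₃) (β : M₁ →+ M₂ →+ M₃)
    (hd : ∀ x y, d₃ (β x y) = β (d₁ x) y + β x (d₂ y)) (n : ℕ) (x : M₁) (y : M₂) :
    d₃^[n] (β x y) = ∑ ij ∈ antidiagonal n, n.choose ij.1 • β (d₁^[ij.1] x) (d₂^[ij.2] y) := by
  induction n with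
  | zero => simp
  | succ n ih =>
    rw [Function.iterate_succ_apply', ih, map_sum]
    have h1 : ∀ ij ∈ antidiagonal n, d₃ (n.choose ij.1 • β (d₁^[ij.1] x) (d₂^[ij.2] y)) =
        n.choose ij.1 • β (d₁^[ij.1] x) (d₂^[ij.2 + 1] y) +
        n.choose ij.2 • β (d₁^[ij.1 + 1] x) (d₂^[ij.2] y) := by
      intro ij hij
      rw [map_nsmul, hd, smul_add, add_comm, Function.iterate_succ_apply',
        Function.iterate_succ_apply']
      congr 2
      rw [← Nat.choose_symm_of_eq_add]
      rw [Finset.HasAntidiagonal.mem_antidiagonal] at hij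
      omega
    rw [sum_congr rfl h1, sum_add_distrib,
      sum_antidiagonal_choose_succ_nsmul (fun i j => β (d₁^[i] x) (d₂^[j] y))]

lemma leib_iter_p (d₁ : M₁ →+ M₁) (d₂ : M₂ →+ M₂) (d₃ : M₃ →+ M₃) (β : M₁ →+ M₂ →+ M₃)
    (hd : ∀ x y, d₃ (β x y) = β (d₁ x) y + β x (d₂ y)) {p : ℕ} (hp : p.Prime)
    (hch : ∀ z : M₃, p • z = 0) (x : M₁) (y : M₂) :
    d₃^[p] (β x y) = β (d₁^[p] x) y + β x (d₂^[p] y) := by
  rw [leib_iter d₁ d₂ d₃ β hd]
  have hne : ((p, 0) : ℕ × ℕ) ≠ (0, p) := by
    intro h
    exact hp.ne_zero (Prod.ext_iff.1 h).1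
  have hsub : ({(p, 0), (0, p)} : Finset (ℕ × ℕ)) ⊆ antidiagonal p := by
    intro ij hij
    simp only [mem_insert, mem_singleton] at hij
    rcases hij with rfl | rfl
    · simp
    · simp
  rw [← sum_subset hsub, sum_pair hne]
  · simp
  · intro ij hij hn
    simp only [mem_insert, mem_singleton, not_or] at hn
    rw [Finset.HasAntidiagonal.mem_antidiagonal] at hij
    have h0 : ij.1 ≠ 0 := by
      intro h0
      apply hn.2
      ext
      · exact h0
      · simp only; omega
    have h1 : ij.1 ≠ p := by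
      intro h0
      apply hn.1
      ext
      · exact h0
      · simp only; omega
    obtain ⟨c, hc⟩ := hp.dvd_choose_self h0 (by omega)
    rw [hc, mul_smul, hch]

variable {k : Type*} [Field k]

/-- If `D t = 1` for a derivation `D` of `k(X) / k` in characteristic `p`, then `D ^ p = 0`. -/
lemma iterate_p_eq_zero {p : ℕ} (hp : p.Prime) [CharP k p]
    (D : Derivation k (RatFunc k) (RatFunc k)) (t : RatFunc k) (ht : D t = 1)
    (f : RatFunc k) : D^[p] f = 0 := by
  have : CharP (RatFunc k) p := charP_of_injective_algebraMap (algebraMap k (RatFunc k)).injective p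
  have hL : ∀ x y : RatFunc k, D^[p] (x * y) = D^[p] x * y + x * D^[p] y := by
    intro x y
    have := leib_iter_p (D : RatFunc k →+ RatFunc k) (D : RatFunc k →+ RatFunc k)
      (D : RatFunc k →+ RatFunc k) AddMonoidHom.mul (fun x y => by
        simp only [AddMonoidHom.coe_coe, AddMonoidHom.mul_apply, Derivation.leibniz,
          smul_eq_mul]
        ring) hp (fun z => by rw [nsmul_eq_mul, CharP.cast_eq_zero, zero_mul]) x y
    simpa using this
  have hk : ∀ (c : k) (x : RatFunc k), D^[p] (c • x) = c • D^[p] x := by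
    intro c x
    generalize p = q
    induction q generalizing x with
    | zero => rfl
    | succ q ih => rw [Function.iterate_succ_apply, Function.iterate_succ_apply, D.map_smul, ih]
  have hadd : ∀ x y : RatFunc k, D^[p] (x + y) = D^[p] x + D^[p] y := by
    intro x y
    exact iterate_map_add D p x y
  let L : RatFunc k →ₗ[k] RatFunc k :=
    { toFun := D^[p]
      map_add' := hadd
      map_smul' := hk }
  let D' : Derivation k (RatFunc k) (RatFunc k) := Derivation.mk' L (by
    intro a b
    change D^[p] (a * b) = a • D^[p] b + b • D^[p] a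
    rw [hL, smul_eq_mul, smul_eq_mul]
    ring)
  have hD' : ∀ x, D' x = D^[p] x := fun x => rfl
  have h1 : ∀ x, D' x = D' RatFunc.X * ddx k x := fun x =>
    der_theta (AlgHom.id k (RatFunc k)) D' x
  have h2 : D' t = 0 := by
    rw [hD']
    obtain ⟨q, rfl⟩ : ∃ q, p = q + 2 := ⟨p - 2, by have := hp.two_le; omega⟩
    rw [Function.iterate_succ_apply, ht, Function.iterate_succ_apply, Derivation.map_one_eq_zero]
    exact iterate_map_zero D q
  have h3 : ddx k t ≠ 0 := by
    intro h0
    have h4 : D t = D RatFunc.X * ddx k t := der_theta (AlgHom.id k (RatFunc k)) D t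
    rw [ht, h0, mul_zero] at h4
    exact one_ne_zero h4
  have h5 : D' RatFunc.X = 0 := by
    have h6 := h1 t
    rw [h2] at h6
    exact (mul_eq_zero.1 h6.symm).resolve_right h3
  rw [← hD', h1, h5, zero_mul]

end pder

end Pool.Agent.L5helper79.PCR
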