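import Mathlib
import Pool.Agent.L5helper79.PCR.Conn
import Pool.Agent.L5helper79.PCR.Jmap
import Pool.Agent.L5helper79.PCR.Sub
import Pool.Agent.L5helper79.PCR.Defs

set_option autoImplicit false

/-!
Push-forward along `t = j(s)`: field identities and characteristic `p`.
-/

open Finset Polynomial Pool.Agent.W432.PC
open scoped Kronecker

namespace Pool.Agent.L5helper79.PCR

section field

variable {E : Type*} [Field E]

/-- `t = j(s)`. -/
def jj (s : E) : E := 4 * pQ s ^ 3 / (27 * (s ^ 2 * (s - 1) ^ 2))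

/-- `ds/dt`. -/
def gg (s : E) : E := 27 * (s ^ 3 * (s - 1) ^ 3) / (4 * pQ s ^ 2 * pS s)

/-- the good points -/
structure Good (s : E) : Prop where
  two : (2 : E) ≠ 0
  three : (3 : E) ≠ 0
  s0 : s ≠ 0
  s1 : s - 1 ≠ 0
  Q0 : pQ s ≠ 0
  S0 : pS s ≠ 0

lemma Good.c4 {s : E} (h : Good s) : (4 : E) ≠ 0 := by
  have := mul_ne_zero h.two h.two
  norm_num at this
  exact this

lemma Good.c27 {s : E} (h : Good s) : (27 : E) ≠ 0 := by
  have := mul_ne_zero h.three (mul_ne_zero h.three h.three)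
  norm_num at this
  exact this

lemma Good.jj0 {s : E} (h : Good s) : jj s ≠ 0 :=
  div_ne_zero (mul_ne_zero h.c4 (pow_ne_zero _ h.Q0))
    (mul_ne_zero h.c27 (mul_ne_zero (pow_ne_zero _ h.s0) (pow_ne_zero _ h.s1)))

lemma Good.gg0 {s : E} (h : Good s) : gg s ≠ 0 :=
  div_ne_zero (mul_ne_zero h.c27 (mul_ne_zero (pow_ne_zero _ h.s0) (pow_ne_zero _ h.s1)))
    (mul_ne_zero (mul_ne_zero h.c4 (pow_ne_zero _ h.Q0)) h.S0)

lemma Good.jj1 {s : E} (h : Good s) : jj s - 1 = pS s ^ 2 / (27 * (s ^ 2 * (s - 1) ^ 2)) := by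
  have h27 := h.c27
  have h0 := h.s0
  have h1 := h.s1
  unfold jj
  rw [← SQ]
  field_simp

lemma Good.jj1' {s : E} (h : Good s) : jj s - 1 ≠ 0 := by
  rw [h.jj1]
  exact div_ne_zero (pow_ne_zero _ h.S0)
    (mul_ne_zero h.c27 (mul_ne_zero (pow_ne_zero _ h.s0) (pow_ne_zero _ h.s1)))

lemma term_eq {s : E} (h : Good s) (u v : E) : u / jj s + v / (jj s - 1) =
    (27 * (s ^ 2 * (s - 1) ^ 2)) / (4 * pQ s ^ 3 * pS s ^ 2) *
      (u * pS s ^ 2 + 4 * v * pQ s ^ 3) := by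
  have h27 := h.c27
  have h4 := h.c4
  have h0 := h.s0
  have h1 := h.s1
  have hQ := h.Q0
  have hS := h.S0
  rw [h.jj1]
  unfold jj
  field_simp

lemma u_sum {s : E} (h : Good s) (k : Fin 6) :
    ∑ l : Fin 6, s ^ (l : ℕ) * ((MU l k : E) / jj s + (MU2 l k : E) / (jj s - 1)) =
      108 * gg s * s ^ (k : ℕ) / s := by
  have h27 := h.c27
  have h4 := h.c4
  have h0 := h.s0
  have h1 := h.s1
  have hQ := h.Q0
  have hS := h.S0
  have e1 : ∀ l : Fin 6, s ^ (l : ℕ) * ((MU l k : E) / jj s + (MU2 l k : E) / (jj s - 1)) =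
      (27 * (s ^ 2 * (s - 1) ^ 2)) / (4 * pQ s ^ 3 * pS s ^ 2) *
      (s ^ (l : ℕ) * ((MU l k : E) * pS s ^ 2 + 4 * (MU2 l k : E) * pQ s ^ 3)) := by
    intro l
    rw [term_eq h]
    ring
  rw [sum_congr rfl fun l _ => e1 l, ← mul_sum, U_id]
  unfold gg
  field_simp

lemma w_sum {s : E} (h : Good s) (k : Fin 6) :
    ∑ l : Fin 6, s ^ (l : ℕ) * ((MW l k : E) / jj s + (MW2 l k : E) / (jj s - 1)) =
      108 * gg s * s ^ (k : ℕ) / (s - 1) := by
  have h27 := h.c27
  have h4 := h.c4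
  have h0 := h.s0
  have h1 := h.s1
  have hQ := h.Q0
  have hS := h.S0
  have e1 : ∀ l : Fin 6, s ^ (l : ℕ) * ((MW l k : E) / jj s + (MW2 l k : E) / (jj s - 1)) =
      (27 * (s ^ 2 * (s - 1) ^ 2)) / (4 * pQ s ^ 3 * pS s ^ 2) *
      (s ^ (l : ℕ) * ((MW l k : E) * pS s ^ 2 + 4 * (MW2 l k : E) * pQ s ^ 3)) := by
    intro l
    rw [term_eq h]
    ring
  rw [sum_congr rfl fun l _ => e1 l, ← mul_sum, W_id]
  unfold gg
  field_simp

/-- the derivative of `j` -/
lemma der_jj {s : E} (h : Good s) (D : Derivation ℤ E E) : D (jj s) * gg s = D s := by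
  have h27 := h.c27
  have h4 := h.c4
  have h0 := h.s0
  have h1 := h.s1
  have hQ := h.Q0
  have hS := h.S0
  have e1 : jj s * (27 * (s ^ 2 * (s - 1) ^ 2)) = 4 * pQ s ^ 3 := by
    unfold jj
    field_simp
  have e2 := congrArg D e1
  have d27 : D 27 = 0 := by exact_mod_cast D.map_natCast 27
  have d4 : D 4 = 0 := by exact_mod_cast D.map_natCast 4
  have dQ : D (pQ s) = (2 * s - 1) * D s := by
    unfold pQ
    rw [map_add, map_sub, Derivation.leibniz_pow, Derivation.map_one_eq_zero]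
    simp only [nsmul_eq_mul, smul_eq_mul]
    push_cast
    ring
  have d1 : D (s - 1) = D s := by rw [map_sub, Derivation.map_one_eq_zero, sub_zero]
  simp only [Derivation.leibniz, Derivation.leibniz_pow, smul_eq_mul, nsmul_eq_mul, d27, d4, dQ,
    d1] at e2
  push_cast at e2
  norm_num at e2
  have e3 : D (jj s) * (27 * (s ^ 3 * (s - 1) ^ 3)) = 4 * pQ s ^ 2 * pS s * D s := by
    have e4 : D (jj s) * (27 * (s ^ 2 * (s - 1) ^ 2)) =
        12 * pQ s ^ 2 * (2 * s - 1) * D s - jj s * (27 * (2 * s * (s - 1) * (2 * s - 1))) * D s := by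
      linear_combination e2
    have e5 : jj s * (27 * (2 * s * (s - 1) * (2 * s - 1))) * (s * (s - 1)) =
        8 * pQ s ^ 3 * (2 * s - 1) := by
      linear_combination (2 * (2 * s - 1)) * e1
    have e6 : pS s = (2 * s - 1) * (3 * (s * (s - 1)) - 2 * pQ s) := by
      unfold pS pQ; ring
    rw [e6]
    linear_combination (s * (s - 1)) * e4 - (D s) * e5
  unfold gg
  rw [mul_div_assoc', e3]
  field_simp

/-- The key identity of the push-forward. -/
lemma key_id {s : E} (h : Good s) (β γ d N : E) (hN : N ≠ 0) (k : Fin 6) :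
    ∑ l : Fin 6, s ^ (l : ℕ) *
      ((β * (MU l k : E) + γ * (MW l k : E) - N * (d * ((MU * MK) l k : ℤ))) / (108 * N) / jj s +
        (β * (MU2 l k : E) + γ * (MW2 l k : E) - N * (d * ((MU2 * MK) l k : ℤ))) / (108 * N) /
          (jj s - 1)) =
      gg s * ((β / N) / s + (γ / N) / (s - 1)) * s ^ (k : ℕ) -
        d * (gg s * ((k : ℕ) * s ^ (k : ℕ) / s)) := by
  have h108 : (108 : E) ≠ 0 := by
    have := mul_ne_zero h.c4 h.c27
    norm_num at this
    exact this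
  have hK : ∀ l, (((MU * MK) l k : ℤ) : E) = (MU l k : E) * ((k : ℕ) : E) := by
    intro l
    rw [MK, Matrix.mul_diagonal]
    push_cast
    rfl
  have hK2 : ∀ l, (((MU2 * MK) l k : ℤ) : E) = (MU2 l k : E) * ((k : ℕ) : E) := by
    intro l
    rw [MK, Matrix.mul_diagonal]
    push_cast
    rfl
  have h0 := h.s0
  have h1 := h.s1
  have hj0 := h.jj0
  have hj1 := h.jj1'
  have e1 : ∀ l : Fin 6, s ^ (l : ℕ) *
      ((β * (MU l k : E) + γ * (MW l k : E) - N * (d * ((MU * MK) l k : ℤ))) / (108 * N) / jj s +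
        (β * (MU2 l k : E) + γ * (MW2 l k : E) - N * (d * ((MU2 * MK) l k : ℤ))) / (108 * N) /
          (jj s - 1)) =
      (β / N - d * (k : ℕ)) / 108 *
        (s ^ (l : ℕ) * ((MU l k : E) / jj s + (MU2 l k : E) / (jj s - 1))) +
      (γ / N) / 108 * (s ^ (l : ℕ) * ((MW l k : E) / jj s + (MW2 l k : E) / (jj s - 1))) := by
    intro l
    rw [hK, hK2]
    field_simp
    ring
  rw [sum_congr rfl fun l _ => e1 l, sum_add_distrib, ← mul_sum, ← mul_sum, u_sum h, w_sum h]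
  field_simp
  ring

end field

end Pool.Agent.L5helper79.PCR
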