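import Mathlib
import Pool.Agent.L5helper79.PCR.PushP

set_option autoImplicit false

/-!
Push-forward along `t = j(s)` in characteristic `p`.
-/

open Finset Polynomial Pool.Agent.W432.PC
open scoped Kronecker

namespace Pool.Agent.L5helper79.PCR

/-- A derivation over `k` as a derivation over `ℤ`. -/
def toZ {k E : Type*} [Field k] [Field E] [Algebra k E] (D : Derivation k E E) :
    Derivation ℤ E E := D.restrictScalars ℤ

lemma toZ_apply {k E : Type*} [Field k] [Field E] [Algebra k E] (D : Derivation k E E) (f : E) :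
    toZ D f = D f := rfl

lemma smulD_apply {E : Type*} [Field E] (g : E) (D : Derivation ℤ E E) (f : E) :
    (g • D) f = g * D f := rfl

lemma smulD_pow {E : Type*} [Field E] (g : E) (D : Derivation ℤ E E) (s : E) (hs : s ≠ 0)
    (hD : D s = 1) (m : ℕ) : (g • D) (s ^ m) = g * ((m : E) * s ^ m / s) := by
  rw [Derivation.smul_apply, Derivation.leibniz_pow, hD, smul_eq_mul, nsmul_eq_mul,
    smul_eq_mul, mul_one]
  congr 1
  rcases Nat.eq_zero_or_pos m with h0 | h0
  · simp [h0]
  · obtain ⟨q, hq⟩ : ∃ q, m = q + 1 := ⟨m - 1, by omega⟩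
    rw [hq, Nat.add_sub_cancel, pow_succ]
    field_simp

section good

variable {k : Type*} [Field k]

lemma good_X (h2 : (2 : k) ≠ 0) (h3 : (3 : k) ≠ 0) : Good (RatFunc.X : RatFunc k) := by
  have hinj : Function.Injective (algebraMap k[X] (RatFunc k)) :=
    IsFractionRing.injective k[X] (RatFunc k)
  have hne : ∀ p : k[X], p ≠ 0 → algebraMap k[X] (RatFunc k) p ≠ 0 := by
    intro p hp
    rw [Ne, map_eq_zero_iff _ hinj]; exact hp
  have hc : ∀ m : ℕ, (m : k) ≠ 0 → (m : k[X]) ≠ 0 := by
    intro m hm h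
    apply hm
    have := congrArg (eval 0) h
    simpa using this
  have h2' : (2 : k[X]) ≠ 0 := by exact_mod_cast hc 2 (by exact_mod_cast h2)
  have h3' : (3 : k[X]) ≠ 0 := by exact_mod_cast hc 3 (by exact_mod_cast h3)
  refine ⟨?_, ?_, ?_, ?_, ?_, ?_⟩
  · have := hne 2 h2'
    rwa [map_ofNat] at this
  · have := hne 3 h3'
    rwa [map_ofNat] at this
  · exact RatFunc.X_ne_zero
  · have h : (X - 1 : k[X]) ≠ 0 := by
      intro h
      have := congrArg (eval 0) h
      simp at this
    have := hne _ h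
    simpa using this
  · have h : (pQ X : k[X]) ≠ 0 := by
      intro h
      have := congrArg (eval 0) h
      simp [pQ] at this
    have := hne _ h
    simpa [pQ] using this
  · have h : (pS X : k[X]) ≠ 0 := by
      intro h
      have := congrArg (eval 0) h
      simp [pS] at this
      exact h2 this
    have := hne _ h
    simpa [pS, map_ofNat] using this

lemma deg_N (h2 : (2 : k) ≠ 0) : (4 * pQ (X : k[X]) ^ 3).degree = ((6 : ℕ) : WithBot ℕ) := by
  have h4 : (4 : k) ≠ 0 := by
    have := mul_ne_zero h2 h2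
    norm_num at this
    exact this
  have e1 : (4 : k[X]) = C 4 := (map_ofNat C 4).symm
  have e2 : (pQ (X : k[X])).degree = 2 := by
    unfold pQ
    compute_degree!
  rw [e1, degree_C_mul h4, degree_pow, e2]
  rfl

lemma cop_ND (h2 : (2 : k) ≠ 0) (h3 : (3 : k) ≠ 0) :
    IsCoprime (4 * pQ (X : k[X]) ^ 3) (27 * (X ^ 2 * (X - 1) ^ 2)) := by
  have h4 : (4 : k) ≠ 0 := by
    have := mul_ne_zero h2 h2
    norm_num at this
    exact this
  have h27 : (27 : k) ≠ 0 := by
    have := mul_ne_zero h3 (mul_ne_zero h3 h3)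
    norm_num at this
    exact this
  have u4 : IsUnit (4 : k[X]) := by
    have : (4 : k[X]) = C 4 := (map_ofNat C 4).symm
    rw [this]
    exact isUnit_C.2 (IsUnit.mk0 _ h4)
  have u27 : IsUnit (27 : k[X]) := by
    have : (27 : k[X]) = C 27 := (map_ofNat C 27).symm
    rw [this]
    exact isUnit_C.2 (IsUnit.mk0 _ h27)
  rw [isCoprime_mul_unit_left_left u4, isCoprime_mul_unit_left_right u27]
  have h : IsCoprime (pQ (X : k[X])) (X * (X - 1)) := ⟨1, -1, by unfold pQ; ring⟩
  have := IsCoprime.pow (m := 3) (n := 2) h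
  rw [mul_pow] at this
  exact this

lemma jj_eq : algebraMap k[X] (RatFunc k) (4 * pQ (X : k[X]) ^ 3) /
    algebraMap k[X] (RatFunc k) (27 * (X ^ 2 * (X - 1) ^ 2)) = jj (RatFunc.X : RatFunc k) := by
  simp [jj, pQ, map_ofNat]

lemma D_ne (h3 : (3 : k) ≠ 0) : (27 * (X ^ 2 * (X - 1) ^ 2) : k[X]) ≠ 0 := by
  have h27 : (27 : k) ≠ 0 := by
    have := mul_ne_zero h3 (mul_ne_zero h3 h3)
    norm_num at this
    exact this
  have h1 : (27 : k[X]) ≠ 0 := by
    have : (27 : k[X]) = C 27 := (map_ofNat C 27).symm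
    rw [this]
    exact C_ne_zero.2 h27
  have h2 : (X - 1 : k[X]) ≠ 0 := by
    intro h
    have := congrArg (eval 0) h
    simp at this
  exact mul_ne_zero h1 (mul_ne_zero (pow_ne_zero _ X_ne_zero) (pow_ne_zero _ h2))

lemma indep (h2 : (2 : k) ≠ 0) (h3 : (3 : k) ≠ 0) (a : Fin 6 → k[X])
    (h : ∑ l : Fin 6, (RatFunc.X : RatFunc k) ^ (l : ℕ) * aeval (jj (RatFunc.X : RatFunc k)) (a l)
      = 0) : ∀ l, a l = 0 := by
  have key := sum_zero (d := 6) (4 * pQ (X : k[X]) ^ 3) (27 * (X ^ 2 * (X - 1) ^ 2)) (deg_N h2)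
    (cop_ND h2 h3) (D_ne h3) (∑ l, ((a l).natDegree + 1)) a
  rw [jj_eq] at key
  refine key ?_ h
  intro l m hm
  apply coeff_eq_zero_of_natDegree_lt
  have : (a l).natDegree + 1 ≤ ∑ l, ((a l).natDegree + 1) :=
    single_le_sum (f := fun l => (a l).natDegree + 1) (fun _ _ => Nat.zero_le _) (mem_univ l)
  omega

lemma aeval_inj (h2 : (2 : k) ≠ 0) (h3 : (3 : k) ≠ 0) :
    Function.Injective (aeval (jj (RatFunc.X : RatFunc k)) : k[X] →ₐ[k] RatFunc k) := by
  rw [injective_iff_map_eq_zero]
  intro p hp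
  have := indep h2 h3 (fun l => if l = 0 then p else 0) (by
    refine sum_eq_zero fun l _ => ?_
    by_cases hl : l = 0
    · simp only [hl, if_true, hp, mul_zero]
    · simp only [hl, if_false, map_zero, mul_zero]) 0
  simpa using this

lemma push_inj {ι : Type*} (h2 : (2 : k) ≠ 0) (h3 : (3 : k) ≠ 0) (y : ι × Fin 6 → RatFunc k)
    (h : push (theta (jj (RatFunc.X : RatFunc k)) (aeval_inj h2 h3) : RatFunc k →+* RatFunc k)
      (fun l : Fin 6 => (RatFunc.X : RatFunc k) ^ (l : ℕ)) y = 0) : y = 0 := by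
  funext ⟨i, l₀⟩
  have h1 := congrFun h i
  simp only [push, Pi.zero_apply] at h1
  obtain ⟨b, hb⟩ := IsLocalization.exist_integer_multiples_of_finite (nonZeroDivisors k[X])
    (fun l : Fin 6 => y (i, l))
  choose a ha using hb
  have hb0 : algebraMap k[X] (RatFunc k) b ≠ 0 :=
    IsFractionRing.to_map_ne_zero_of_mem_nonZeroDivisors b.2
  have ha' : ∀ l, algebraMap k[X] (RatFunc k) (a l) =
      algebraMap k[X] (RatFunc k) b * y (i, l) := by
    intro l
    rw [ha l, Algebra.smul_def]
  have h2' := indep h2 h3 a (by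
    have : ∀ l : Fin 6, (RatFunc.X : RatFunc k) ^ (l : ℕ) *
        aeval (jj (RatFunc.X : RatFunc k)) (a l) =
        theta (jj (RatFunc.X : RatFunc k)) (aeval_inj h2 h3) (algebraMap k[X] (RatFunc k) b) *
        ((RatFunc.X : RatFunc k) ^ (l : ℕ) *
          theta (jj (RatFunc.X : RatFunc k)) (aeval_inj h2 h3) (y (i, l))) := by
      intro l
      rw [← theta_algebraMap _ (aeval_inj h2 h3), ha', map_mul]
      ring
    rw [sum_congr rfl fun l _ => this l, ← mul_sum]
    have h3' : ∑ l : Fin 6, (RatFunc.X : RatFunc k) ^ (l : ℕ) *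
        theta (jj (RatFunc.X : RatFunc k)) (aeval_inj h2 h3) (y (i, l)) = 0 := h1
    rw [h3', mul_zero]) l₀
  have h3' := ha' l₀
  rw [h2', map_zero] at h3'
  exact (mul_eq_zero.1 h3'.symm).resolve_left hb0

end good

section main

variable {k : Type*} [Field k] {ι : Type*} [Fintype ι]

lemma nabla_eq_conn (b c : Matrix ι ι k) :
    nabla b c = conn (toZ (ddx k)) (sysMat b c) := rfl

theorem pcurv_push [DecidableEq ι] (h2 : (2 : k) ≠ 0) (h3 : (3 : k) ≠ 0)
    (hp : (ringChar k).Prime) (n : ℕ) (hn : (n : k) ≠ 0) (b c : Matrix ι ι ℤ)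
    (h : PCurvZero (redMat (Int.castRingHom k) n b) (redMat (Int.castRingHom k) n c)) :
    PCurvZero (redMat (Int.castRingHom k) (108 * n) (pushB n b c))
      (redMat (Int.castRingHom k) (108 * n) (pushC n b c)) := by
  have hG := good_X h2 h3
  set s : RatFunc k := RatFunc.X with hs
  set θ := theta (jj s) (aeval_inj h2 h3) with hθ
  set D := toZ (ddx k) with hD
  have hDf : ∀ f, D f = ddx k f := fun f => rfl
  have hX : D s = 1 := by
    rw [hDf, hs, ← RatFunc.algebraMap_X, ddx_algebraMap, derivative_X, map_one]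
  have hθX : θ RatFunc.X = jj s := theta_X _ _
  have hgj : D (jj s) * gg s = 1 := by rw [der_jj hG D, hX]
  have hθD : ∀ f, (gg s • D) ((θ : RatFunc k →+* RatFunc k) f) =
      (θ : RatFunc k →+* RatFunc k) (D f) := by
    intro f
    rw [smulD_apply, hDf, hDf]
    have := der_theta θ (ddx k) f
    change gg s * ddx k (θ f) = θ (ddx k f)
    rw [this, hθX]
    rw [hDf] at hgj
    linear_combination (θ (ddx k f)) * hgj
  set B := redMat (Int.castRingHom k) n b with hB
  set C' := redMat (Int.castRingHom k) n c with hC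
  have hnN : ((n : ℕ) : RatFunc k) ≠ 0 := by
    have : ((n : ℕ) : RatFunc k) = algebraMap k (RatFunc k) (n : k) := by simp
    rw [this, Ne, map_eq_zero]
    exact hn
  have hA : ∀ i j m, ∑ l : Fin 6, s ^ (l : ℕ) * (θ : RatFunc k →+* RatFunc k)
      (sysMat (redMat (Int.castRingHom k) (108 * n) (pushB n b c))
        (redMat (Int.castRingHom k) (108 * n) (pushC n b c)) (i, l) (j, m)) =
      (gg s • sysMat B C') i j * s ^ ((m : Fin 6) : ℕ) -
        if i = j then (gg s • D) (s ^ (m : ℕ)) else 0 := by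
    intro i j m
    have key := key_id hG ((b i j : ℤ) : RatFunc k) ((c i j : ℤ) : RatFunc k)
      (if i = j then 1 else 0) (n : RatFunc k) hnN m
    have hC1 : ∀ a : k, θ (RatFunc.C a) = RatFunc.C a := by
      intro a
      rw [← RatFunc.algebraMap_eq_C]
      exact θ.commutes a
    have hCz : ∀ z : ℤ, RatFunc.C (z : k) = (z : RatFunc k) := fun z => map_intCast _ z
    have hCn : ∀ z : ℕ, RatFunc.C (z : k) = (z : RatFunc k) := fun z => map_natCast _ z
    have hDp : (gg s • D) (s ^ (m : ℕ)) = gg s * (((m : ℕ) : RatFunc k) * s ^ (m : ℕ) / s) :=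
      smulD_pow _ _ _ hG.s0 hX _
    have e1 : ∀ l : Fin 6, (θ : RatFunc k →+* RatFunc k)
        (sysMat (redMat (Int.castRingHom k) (108 * n) (pushB n b c))
        (redMat (Int.castRingHom k) (108 * n) (pushC n b c)) (i, l) (j, m)) =
        ((((b i j : ℤ) : RatFunc k) * (MU l m : RatFunc k) +
          ((c i j : ℤ) : RatFunc k) * (MW l m : RatFunc k) -
          (n : RatFunc k) * ((if i = j then 1 else 0) * ((MU * MK) l m : ℤ))) /
          (108 * (n : RatFunc k)) / jj s +
        (((b i j : ℤ) : RatFunc k) * (MU2 l m : RatFunc k) +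
          ((c i j : ℤ) : RatFunc k) * (MW2 l m : RatFunc k) -
          (n : RatFunc k) * ((if i = j then 1 else 0) * ((MU2 * MK) l m : ℤ))) /
          (108 * (n : RatFunc k)) / (jj s - 1)) := by
      intro l
      change θ _ = _
      simp only [sysMat, redMat, pushB, pushC, Matrix.of_apply, Matrix.sub_apply,
        Matrix.add_apply, Matrix.smul_apply, Matrix.kroneckerMap_apply, Matrix.one_apply,
        smul_eq_mul, eq_intCast, map_add, map_div₀, map_sub, hC1, hθX, map_one]
      push_cast
      simp only [map_mul, hCz, hCn, map_ofNat]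
      by_cases hij : i = j
      · simp only [hij, if_true]
        norm_num
      · simp only [hij, if_false]
        norm_num
    rw [sum_congr rfl fun l _ => by rw [e1 l], key, hDp]
    have e2 : (gg s • sysMat B C') i j = gg s * (((b i j : ℤ) : RatFunc k) / (n : RatFunc k) / s +
        ((c i j : ℤ) : RatFunc k) / (n : RatFunc k) / (s - 1)) := by
      simp only [Matrix.smul_apply, sysMat, hB, hC, redMat, Matrix.of_apply, smul_eq_mul,
        eq_intCast, map_div₀, hCz, hCn]
      rfl
    rw [e2]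
    by_cases hij : i = j
    · simp only [hij, if_true, one_mul]
    · simp only [hij, if_false, zero_mul]
  have hpush := push_conn D (gg s • D) (θ : RatFunc k →+* RatFunc k) hθD
    (fun l : Fin 6 => s ^ (l : ℕ)) _ (gg s • sysMat B C') hA
  intro y
  rw [nabla_eq_conn]
  apply push_inj h2 h3
  have hiter : ∀ q : ℕ, ∀ y, push (θ : RatFunc k →+* RatFunc k) (fun l : Fin 6 => s ^ (l : ℕ))
      ((conn D (sysMat (redMat (Int.castRingHom k) (108 * n) (pushB n b c))
        (redMat (Int.castRingHom k) (108 * n) (pushC n b c))))^[q] y) =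
      (conn (gg s • D) (gg s • sysMat B C'))^[q] (push (θ : RatFunc k →+* RatFunc k)
        (fun l : Fin 6 => s ^ (l : ℕ)) y) := by
    intro q
    induction q with
    | zero => intro y; rfl
    | succ q ih =>
      intro y
      rw [Function.iterate_succ_apply, Function.iterate_succ_apply, ih, hpush]
  rw [hiter]
  have : CharP k (ringChar k) := ringChar.charP k
  have hch : CharP (RatFunc k) (ringChar k) :=
    charP_of_injective_algebraMap (algebraMap k (RatFunc k)).injective _
  apply iterate_smul_conn D (sysMat B C') s hX (ringChar k)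
  · intro i hi1 hi2 h0
    rw [CharP.cast_eq_zero_iff (RatFunc k) (ringChar k)] at h0
    exact absurd (Nat.le_of_dvd hi1 h0) (by omega)
  · intro z
    have := h z
    rw [nabla_eq_conn] at this
    exact this
  · intro f
    have h5 : (gg s • ddx k) (jj s) = 1 := by
      rw [Derivation.smul_apply, smul_eq_mul]
      rw [hDf] at hgj
      rw [mul_comm]; exact hgj
    exact iterate_p_eq_zero hp (gg s • ddx k) (jj s) h5 f

end main

end Pool.Agent.L5helper79.PCR
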