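import Mathlib
import Pool.Agent.L5helper79.PCR.PushP2

set_option autoImplicit false

/-!
Push-forward along `t = j(s)`: algebraic solutions in characteristic `0`.
-/

open Finset Polynomial Pool.Agent.W432.PC
open scoped Kronecker

namespace Pool.Agent.L5helper79.PCR

section general

lemma lift_exists {R : Type*} [Field R] {M : Type*} [Field M] [IsAlgClosed M] (ψ : R →+* M) :
    ∃ θ : AlgebraicClosure R →+* M, ∀ f, θ (algebraMap R (AlgebraicClosure R) f) = ψ f := by
  let _ := ψ.toAlgebra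
  exact ⟨(IsAlgClosed.lift : AlgebraicClosure R →ₐ[R] M).toRingHom,
    fun f => AlgHom.commutes (IsAlgClosed.lift : AlgebraicClosure R →ₐ[R] M) f⟩

lemma surj_of_range {R L M : Type*} [Field R] [Field L] [IsAlgClosed L] [Field M] [Algebra R M]
    [Algebra.IsAlgebraic R M] (θ : L →+* M) (h : ∀ r : R, algebraMap R M r ∈ θ.range) :
    Function.Surjective θ := by
  let _ := θ.toAlgebra
  have : Algebra.IsIntegral L M := ⟨fun x => by
    obtain ⟨P, hP, hx⟩ := (Algebra.IsAlgebraic.isAlgebraic (R := R) x).isIntegral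
    have hl : P.map (algebraMap R M) ∈ lifts θ := by
      rw [lifts_iff_coeff_lifts]
      intro m
      rw [coeff_map]
      obtain ⟨y, hy⟩ := h (P.coeff m)
      exact ⟨y, hy⟩
    obtain ⟨q, hq1, -, hq3⟩ := lifts_and_degree_eq_and_monic hl (hP.map _)
    refine ⟨q, hq3, ?_⟩
    change eval₂ θ x q = 0
    rw [← eval_map, hq1, eval_map]
    exact hx⟩
  exact (IsAlgClosed.algebraMap_bijective_of_isIntegral (k := L) (K := M)).2

lemma derZ_pow {E : Type*} [Field E] (D : Derivation ℤ E E) (s u : E) (hs : s ≠ 0)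
    (hD : D s = u) (m : ℕ) : D (s ^ m) = u * ((m : E) * s ^ m / s) := by
  rw [Derivation.leibniz_pow, hD, smul_eq_mul, nsmul_eq_mul]
  rcases Nat.eq_zero_or_pos m with h0 | h0
  · simp [h0]
  · obtain ⟨q, hq⟩ : ∃ q, m = q + 1 := ⟨m - 1, by omega⟩
    rw [hq, Nat.add_sub_cancel, pow_succ]
    field_simp

lemma algHom_ext_X {k E : Type*} [Field k] [Field E] [Algebra k E] (θ₁ θ₂ : RatFunc k →ₐ[k] E)
    (h : θ₁ RatFunc.X = θ₂ RatFunc.X) (f : RatFunc k) : θ₁ f = θ₂ f := by
  obtain ⟨a, b, hb, hab⟩ := IsFractionRing.div_surjective (A := k[X]) f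
  rw [← hab, map_div₀, map_div₀, algHom_algebraMap, algHom_algebraMap, algHom_algebraMap,
    algHom_algebraMap, h]

end general

section

lemma algSol_iff {ι : Type*} [Fintype ι] [DecidableEq ι] (b c : Matrix ι ι ℂ) :
    AlgSol b c ↔ ∃ δ : Derivation ℂ (AlgebraicClosure (RatFunc ℂ)) (AlgebraicClosure (RatFunc ℂ)), δ (algebraMap (RatFunc ℂ) (AlgebraicClosure (RatFunc ℂ)) RatFunc.X) = 1 ∧
      Full (toZ δ) ((sysMat b c).map (algebraMap (RatFunc ℂ) (AlgebraicClosure (RatFunc ℂ)))) := by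
  unfold AlgSol Full
  constructor
  · rintro ⟨δ, F, h1, h2, h3⟩
    refine ⟨δ, h1, F, h2, fun i j => ?_⟩
    have := congrFun (congrFun h3 i) j
    rw [Matrix.map_apply, Matrix.mul_apply] at this
    exact this
  · rintro ⟨δ, h1, F, h2, h3⟩
    refine ⟨δ, F, h1, h2, ?_⟩
    ext i j
    rw [Matrix.map_apply, Matrix.mul_apply]
    exact h3 i j

/-- a point above `t` -/
lemma exists_good (δ : Derivation ℂ (AlgebraicClosure (RatFunc ℂ)) (AlgebraicClosure (RatFunc ℂ))) (t : (AlgebraicClosure (RatFunc ℂ))) (hδ : δ t = 1) :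
    ∃ s : (AlgebraicClosure (RatFunc ℂ)), Good s ∧ jj s = t ∧ δ s = gg s ∧
      Function.Injective (aeval s : ℂ[X] →ₐ[ℂ] (AlgebraicClosure (RatFunc ℂ))) := by
  have h2 : (2 : (AlgebraicClosure (RatFunc ℂ))) ≠ 0 := two_ne_zero
  have h3 : (3 : (AlgebraicClosure (RatFunc ℂ))) ≠ 0 := three_ne_zero
  have ht0 : t ≠ 0 := by
    rintro rfl
    rw [map_zero] at hδ
    exact zero_ne_one hδ
  have ht1 : t - 1 ≠ 0 := by
    intro h
    rw [sub_eq_zero] at h
    rw [h, Derivation.map_one_eq_zero] at hδ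
    exact zero_ne_one hδ
  obtain ⟨s, hs⟩ := IsAlgClosed.exists_root
    (C 4 * pQ (X : Polynomial (AlgebraicClosure (RatFunc ℂ))) ^ 3 - C (27 * t) * (X ^ 2 * (X - 1) ^ 2)) (by
      have e1 : (C 4 * pQ (X : Polynomial (AlgebraicClosure (RatFunc ℂ))) ^ 3).degree = 6 := by
        have e2 : (pQ (X : Polynomial (AlgebraicClosure (RatFunc ℂ)))).degree = 2 := by
          unfold pQ
          compute_degree!
        rw [degree_C_mul (by norm_num), degree_pow, e2]
        rfl
      have e3 : (C (27 * t) * (X ^ 2 * (X - 1) ^ 2) : Polynomial (AlgebraicClosure (RatFunc ℂ))).degree < 6 := by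
        refine lt_of_le_of_lt (b := 4) ?_ (by norm_num)
        compute_degree
      rw [degree_sub_eq_left_of_degree_lt (by rw [e1]; exact e3), e1]
      norm_num)
  have hs' : 4 * pQ s ^ 3 = 27 * t * (s ^ 2 * (s - 1) ^ 2) := by
    have : 4 * pQ s ^ 3 - 27 * t * (s ^ 2 * (s - 1) ^ 2) = 0 := by
      simpa [IsRoot, pQ] using hs
    exact sub_eq_zero.1 this
  have hG : Good s := by
    have hs0 : s ≠ 0 := by
      rintro rfl
      norm_num [pQ] at hs'
    have hs1 : s - 1 ≠ 0 := by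
      intro h
      rw [sub_eq_zero] at h
      rw [h] at hs'
      norm_num [pQ] at hs'
    refine ⟨h2, h3, hs0, hs1, ?_, ?_⟩
    · intro h
      rw [h] at hs'
      have : 27 * t * (s ^ 2 * (s - 1) ^ 2) ≠ 0 :=
        mul_ne_zero (mul_ne_zero (by norm_num) ht0)
          (mul_ne_zero (pow_ne_zero _ hs0) (pow_ne_zero _ hs1))
      apply this
      rw [← hs']
      ring
    · intro h
      have e := SQ s
      rw [h, hs'] at e
      have : 27 * (t - 1) * (s ^ 2 * (s - 1) ^ 2) ≠ 0 :=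
        mul_ne_zero (mul_ne_zero (by norm_num) ht1)
          (mul_ne_zero (pow_ne_zero _ hs0) (pow_ne_zero _ hs1))
      apply this
      linear_combination e
  have hj : jj s = t := by
    unfold jj
    rw [hs']
    have := hG.s0
    have := hG.s1
    field_simp
  have hds : δ s = gg s := by
    have := der_jj hG (toZ δ)
    rw [toZ_apply, toZ_apply, hj, hδ, one_mul] at this
    exact this.symm
  refine ⟨s, hG, hj, hds, ?_⟩
  rw [injective_iff_map_eq_zero]
  intro p hp
  by_contra hne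
  have halg : IsAlgebraic ℂ s := ⟨p, hne, hp⟩
  have h5 := IsAlgClosed.degree_eq_one_of_irreducible ℂ (minpoly.irreducible halg.isIntegral)
  obtain ⟨z, hz⟩ := minpoly.mem_range_of_degree_eq_one ℂ s h5
  rw [← hz, Derivation.map_algebraMap] at hds
  rw [← hz] at hG
  exact hG.gg0 hds.symm

/-- Substitution `X ↦ s` extends to an automorphism of the algebraic closure. -/
lemma exists_iso (s : (AlgebraicClosure (RatFunc ℂ))) (hs : Function.Injective (aeval s : ℂ[X] →ₐ[ℂ] (AlgebraicClosure (RatFunc ℂ))))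
    (hj : jj s = algebraMap (RatFunc ℂ) (AlgebraicClosure (RatFunc ℂ)) RatFunc.X) :
    ∃ θ : (AlgebraicClosure (RatFunc ℂ)) ≃+* (AlgebraicClosure (RatFunc ℂ)), θ (algebraMap (RatFunc ℂ) (AlgebraicClosure (RatFunc ℂ)) RatFunc.X) = s ∧
      ∀ z : ℂ, θ (algebraMap ℂ (AlgebraicClosure (RatFunc ℂ)) z) = algebraMap ℂ (AlgebraicClosure (RatFunc ℂ)) z := by
  obtain ⟨θ, hθ⟩ := lift_exists ((theta s hs : RatFunc ℂ →ₐ[ℂ] (AlgebraicClosure (RatFunc ℂ))) : RatFunc ℂ →+* (AlgebraicClosure (RatFunc ℂ)))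
  have hθ' : ∀ f, θ (algebraMap (RatFunc ℂ) (AlgebraicClosure (RatFunc ℂ)) f) = theta s hs f := fun f => hθ f
  have hX : θ (algebraMap (RatFunc ℂ) (AlgebraicClosure (RatFunc ℂ)) RatFunc.X) = s := by rw [hθ', theta_X]
  have hz : ∀ z : ℂ, θ (algebraMap ℂ (AlgebraicClosure (RatFunc ℂ)) z) = algebraMap ℂ (AlgebraicClosure (RatFunc ℂ)) z := by
    intro z
    rw [IsScalarTower.algebraMap_apply ℂ (RatFunc ℂ) (AlgebraicClosure (RatFunc ℂ)), hθ', AlgHom.commutes]
    rw [← IsScalarTower.algebraMap_apply]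
  have h2 : (2 : ℂ) ≠ 0 := two_ne_zero
  have h3 : (3 : ℂ) ≠ 0 := three_ne_zero
  have hsurj : Function.Surjective θ := by
    apply surj_of_range (R := RatFunc ℂ) θ
    intro r
    refine ⟨algebraMap (RatFunc ℂ) (AlgebraicClosure (RatFunc ℂ)) (theta (jj RatFunc.X) (aeval_inj h2 h3) r), ?_⟩
    rw [hθ']
    refine (algHom_ext_X ((theta s hs).comp (theta (jj RatFunc.X) (aeval_inj h2 h3)))
      (IsScalarTower.toAlgHom ℂ (RatFunc ℂ) (AlgebraicClosure (RatFunc ℂ))) ?_ r)
    rw [AlgHom.comp_apply, theta_X, IsScalarTower.coe_toAlgHom', ← hj]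
    simp only [jj, pQ, map_div₀, map_mul, map_pow, map_add, map_sub, theta_X, map_one, map_ofNat]
  refine ⟨RingEquiv.ofBijective θ ⟨θ.injective, hsurj⟩, hX, hz⟩

theorem algSol_push {ι : Type*} [Fintype ι] [DecidableEq ι] (n : ℕ) (hn : 0 < n)
    (b c : Matrix ι ι ℤ)
    (h : AlgSol (redMat (Int.castRingHom ℂ) (108 * n) (pushB n b c))
      (redMat (Int.castRingHom ℂ) (108 * n) (pushC n b c))) :
    AlgSol (redMat (Int.castRingHom ℂ) n b) (redMat (Int.castRingHom ℂ) n c) := by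
  rw [algSol_iff] at h ⊢
  obtain ⟨δ, hδ, hF⟩ := h
  obtain ⟨s, hG, hj, hds, hinj⟩ := exists_good δ _ hδ
  obtain ⟨θ, hθX, hθz⟩ := exists_iso s hinj hj
  have hn0 : (n : (AlgebraicClosure (RatFunc ℂ))) ≠ 0 := Nat.cast_ne_zero.2 hn.ne'
  -- the solutions of the original system over the point `s`
  set A₁ : Matrix ι ι (AlgebraicClosure (RatFunc ℂ)) := Matrix.of fun i j =>
    gg s * (((b i j : ℤ) : (AlgebraicClosure (RatFunc ℂ))) / (n : (AlgebraicClosure (RatFunc ℂ))) / s + ((c i j : ℤ) : (AlgebraicClosure (RatFunc ℂ))) / (n : (AlgebraicClosure (RatFunc ℂ))) / (s - 1)) with hA₁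
  have hfull : Full (toZ δ) A₁ := by
    refine full_push (toZ δ) (toZ δ) (RingHom.id (AlgebraicClosure (RatFunc ℂ))) (fun f => rfl)
      (fun l : Fin 6 => s ^ (l : ℕ)) ⟨0, by simp⟩ _ A₁ ?_ hF
    intro i j m
    have key := key_id hG ((b i j : ℤ) : (AlgebraicClosure (RatFunc ℂ))) ((c i j : ℤ) : (AlgebraicClosure (RatFunc ℂ))) (if i = j then 1 else 0) (n : (AlgebraicClosure (RatFunc ℂ))) hn0 m
    have hDp : (toZ δ) (s ^ (m : ℕ)) = gg s * (((m : ℕ) : (AlgebraicClosure (RatFunc ℂ))) * s ^ (m : ℕ) / s) :=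
      derZ_pow _ _ _ hG.s0 hds _
    have hz1 : ∀ z : ℤ, algebraMap (RatFunc ℂ) (AlgebraicClosure (RatFunc ℂ)) (RatFunc.C (z : ℂ)) = (z : (AlgebraicClosure (RatFunc ℂ))) := by
      intro z
      rw [map_intCast, map_intCast]
    have hz2 : ∀ z : ℕ, algebraMap (RatFunc ℂ) (AlgebraicClosure (RatFunc ℂ)) (RatFunc.C (z : ℂ)) = (z : (AlgebraicClosure (RatFunc ℂ))) := by
      intro z
      rw [map_natCast, map_natCast]
    have e1 : ∀ l : Fin 6, (RingHom.id (AlgebraicClosure (RatFunc ℂ))) (((sysMat (redMat (Int.castRingHom ℂ) (108 * n)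
        (pushB n b c)) (redMat (Int.castRingHom ℂ) (108 * n) (pushC n b c))).map
        (algebraMap (RatFunc ℂ) (AlgebraicClosure (RatFunc ℂ)))) (i, l) (j, m)) =
        ((((b i j : ℤ) : (AlgebraicClosure (RatFunc ℂ))) * (MU l m : (AlgebraicClosure (RatFunc ℂ))) + ((c i j : ℤ) : (AlgebraicClosure (RatFunc ℂ))) * (MW l m : (AlgebraicClosure (RatFunc ℂ))) -
          (n : (AlgebraicClosure (RatFunc ℂ))) * ((if i = j then 1 else 0) * ((MU * MK) l m : ℤ))) /
          (108 * (n : (AlgebraicClosure (RatFunc ℂ)))) / jj s +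
        (((b i j : ℤ) : (AlgebraicClosure (RatFunc ℂ))) * (MU2 l m : (AlgebraicClosure (RatFunc ℂ))) + ((c i j : ℤ) : (AlgebraicClosure (RatFunc ℂ))) * (MW2 l m : (AlgebraicClosure (RatFunc ℂ))) -
          (n : (AlgebraicClosure (RatFunc ℂ))) * ((if i = j then 1 else 0) * ((MU2 * MK) l m : ℤ))) /
          (108 * (n : (AlgebraicClosure (RatFunc ℂ)))) / (jj s - 1)) := by
      intro l
      rw [hj]
      simp only [sysMat, redMat, pushB, pushC, Matrix.map_apply, Matrix.of_apply,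
        Matrix.sub_apply, RingHom.id_apply,
        Matrix.add_apply, Matrix.smul_apply, Matrix.kroneckerMap_apply, Matrix.one_apply,
        smul_eq_mul, eq_intCast, map_add, map_div₀, map_sub, map_one]
      push_cast
      simp only [map_mul, hz1, hz2, map_ofNat]
      by_cases hij : i = j
      · simp only [hij, if_true]
        norm_num
      · simp only [hij, if_false]
        norm_num
    rw [sum_congr rfl fun l _ => by rw [e1 l], key, hDp, hA₁, Matrix.of_apply]
    by_cases hij : i = j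
    · simp only [hij, if_true, one_mul]
    · simp only [hij, if_false, zero_mul]
  obtain ⟨G₀, hG₀, hG₀'⟩ := hfull
  -- transport the derivation
  have hgg := hG.gg0
  have hsm : ∀ (z : ℂ) (f : (AlgebraicClosure (RatFunc ℂ))), θ (z • f) = z • θ f := by
    intro z f
    rw [Algebra.smul_def, map_mul, hθz, Algebra.smul_def]
  have hsm' : ∀ (z : ℂ) (f : (AlgebraicClosure (RatFunc ℂ))), θ.symm (z • f) = z • θ.symm f := by
    intro z f
    apply θ.injective
    rw [hsm, RingEquiv.apply_symm_apply, RingEquiv.apply_symm_apply]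
  let L : (AlgebraicClosure (RatFunc ℂ)) →ₗ[ℂ] (AlgebraicClosure (RatFunc ℂ)) :=
    { toFun := fun f => θ.symm ((gg s)⁻¹ * δ (θ f))
      map_add' := by
        intro x y
        rw [map_add, map_add, mul_add, map_add]
      map_smul' := by
        intro z x
        rw [hsm, Derivation.map_smul, RingHom.id_apply, ← hsm']
        congr 1
        rw [mul_smul_comm] }
  let δ' : Derivation ℂ (AlgebraicClosure (RatFunc ℂ)) (AlgebraicClosure (RatFunc ℂ)) := Derivation.mk' L (by
    intro x y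
    change θ.symm ((gg s)⁻¹ * δ (θ (x * y))) =
      x • θ.symm ((gg s)⁻¹ * δ (θ y)) + y • θ.symm ((gg s)⁻¹ * δ (θ x))
    apply θ.injective
    rw [RingEquiv.apply_symm_apply, smul_eq_mul, smul_eq_mul, map_add, θ.map_mul x y,
      θ.map_mul x, θ.map_mul y, RingEquiv.apply_symm_apply, RingEquiv.apply_symm_apply,
      Derivation.leibniz, smul_eq_mul, smul_eq_mul]
    ring)
  have hδ' : ∀ f, δ' f = θ.symm ((gg s)⁻¹ * δ (θ f)) := fun f => rfl
  refine ⟨δ', ?_, G₀.map θ.symm, ?_, ?_⟩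
  · rw [hδ', hθX, hds, inv_mul_cancel₀ hgg, map_one]
  · have : (G₀.map θ.symm).det = θ.symm G₀.det := by
      exact ((θ.symm : (AlgebraicClosure (RatFunc ℂ)) →+* (AlgebraicClosure (RatFunc ℂ))).map_det G₀).symm
    rw [this]
    intro h0
    apply hG₀
    have := congrArg θ h0
    rwa [RingEquiv.apply_symm_apply, map_zero] at this
  · intro i j
    rw [toZ_apply, hδ', Matrix.map_apply, RingEquiv.apply_symm_apply]
    have h5 : δ (G₀ i j) = ∑ l, A₁ i l * G₀ l j := hG₀' i j
    rw [h5]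
    apply θ.injective
    rw [RingEquiv.apply_symm_apply, map_sum, mul_sum]
    refine sum_congr rfl fun l _ => ?_
    rw [map_mul, Matrix.map_apply, Matrix.map_apply, RingEquiv.apply_symm_apply, ← mul_assoc]
    congr 1
    have hz1 : ∀ z : ℤ, algebraMap (RatFunc ℂ) (AlgebraicClosure (RatFunc ℂ)) (RatFunc.C (z : ℂ)) = (z : (AlgebraicClosure (RatFunc ℂ))) := by
      intro z
      rw [map_intCast, map_intCast]
    have hz2 : ∀ z : ℕ, algebraMap (RatFunc ℂ) (AlgebraicClosure (RatFunc ℂ)) (RatFunc.C (z : ℂ)) = (z : (AlgebraicClosure (RatFunc ℂ))) := by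
      intro z
      rw [map_natCast, map_natCast]
    simp only [sysMat, redMat, Matrix.of_apply, eq_intCast, map_add, map_div₀, map_sub, map_one,
      map_intCast, map_natCast, hA₁, hθX]
    field_simp

end

end Pool.Agent.L5helper79.PCR
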