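import Mathlib
import Pool.Agent.L5helper79.PCR.PushA

set_option autoImplicit false

/-!
Restriction of scalars from a number field to `ℚ`.
-/

open Finset Polynomial Pool.Agent.W432.PC

namespace Pool.Agent.L5helper79.PCR

section res

variable {A : Type*} [CommRing A] {ν : Type*} [Fintype ν] (ω : Module.Basis ν ℤ A)
variable {ι : Type*} [Fintype ι]

/-- restriction of scalars of a matrix -/
noncomputable def res (b : Matrix ι ι A) : Matrix (ι × ν) (ι × ν) ℤ :=
  Matrix.of fun x y => ω.repr (b x.1 y.1 * ω y.2) x.2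

variable {k : Type*} [Field k] (φ : A →+* k)

omit [Fintype ι] in
lemma res_sum (b : Matrix ι ι A) (i j : ι) (m : ν) :
    ∑ l, φ (ω l) * ((res ω b (i, l) (j, m) : ℤ) : k) = φ (b i j) * φ (ω m) := by
  have h := ω.sum_repr (b i j * ω m)
  have h2 := congrArg φ h
  rw [map_sum, φ.map_mul (b i j) (ω m)] at h2
  rw [← h2]
  refine sum_congr rfl fun l _ => ?_
  rw [zsmul_eq_mul, φ.map_mul, map_intCast, mul_comm]
  rfl

omit [Fintype ι] in
lemma res_sys (n : ℕ) (b c : Matrix ι ι A) (i j : ι) (m : ν) :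
    ∑ l, RatFunc.C (φ (ω l)) * sysMat (redMat (Int.castRingHom k) n (res ω b))
      (redMat (Int.castRingHom k) n (res ω c)) (i, l) (j, m) =
    sysMat (redMat φ n b) (redMat φ n c) i j * RatFunc.C (φ (ω m)) := by
  have e : ∀ l, RatFunc.C (φ (ω l)) * sysMat (redMat (Int.castRingHom k) n (res ω b))
      (redMat (Int.castRingHom k) n (res ω c)) (i, l) (j, m) =
      RatFunc.C (φ (ω l) * ((res ω b (i, l) (j, m) : ℤ) : k)) * (RatFunc.C ((n : k)⁻¹) /
        RatFunc.X) +
      RatFunc.C (φ (ω l) * ((res ω c (i, l) (j, m) : ℤ) : k)) * (RatFunc.C ((n : k)⁻¹) /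
        (RatFunc.X - 1)) := by
    intro l
    simp only [sysMat, redMat, Matrix.of_apply, eq_intCast, div_eq_mul_inv, map_mul]
    ring
  rw [sum_congr rfl fun l _ => e l, sum_add_distrib, ← sum_mul, ← sum_mul, ← map_sum, ← map_sum,
    res_sum, res_sum]
  simp only [sysMat, redMat, Matrix.of_apply, div_eq_mul_inv, map_mul]
  ring

end res

section charzero

theorem algSol_res {A : Type*} [CommRing A] [Nontrivial A] {ν : Type*} [Fintype ν] [DecidableEq ν]
    (ω : Module.Basis ν ℤ A) {ι : Type*} [Fintype ι] [DecidableEq ι] (φ : A →+* ℂ) (n : ℕ)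
    (b c : Matrix ι ι A)
    (h : AlgSol (redMat (Int.castRingHom ℂ) n (res ω b)) (redMat (Int.castRingHom ℂ) n (res ω c))) :
    AlgSol (redMat φ n b) (redMat φ n c) := by
  rw [algSol_iff] at h ⊢
  obtain ⟨δ, hδ, hF⟩ := h
  refine ⟨δ, hδ, ?_⟩
  refine full_push (toZ δ) (toZ δ) (RingHom.id (AlgebraicClosure (RatFunc ℂ))) (fun f => rfl)
    (fun l : ν => algebraMap (RatFunc ℂ) (AlgebraicClosure (RatFunc ℂ)) (RatFunc.C (φ (ω l)))) ?_ _ _ ?_ hF
  · by_contra hcon
    push Not at hcon
    have h0 : ∀ l, φ (ω l) = 0 := by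
      intro l
      have := hcon l
      rw [map_eq_zero, map_eq_zero] at this
      exact this
    have h1 := congrArg φ (ω.sum_repr (1 : A))
    rw [map_sum, φ.map_one] at h1
    have h2 : ∑ l, φ ((ω.repr 1) l • ω l) = 0 := by
      refine sum_eq_zero fun l _ => ?_
      rw [zsmul_eq_mul, map_mul, h0, mul_zero]
    rw [h2] at h1
    exact zero_ne_one h1
  · intro i j m
    have hD : toZ δ (algebraMap (RatFunc ℂ) (AlgebraicClosure (RatFunc ℂ)) (RatFunc.C (φ (ω m)))) = 0 := by
      rw [toZ_apply, ← RatFunc.algebraMap_eq_C, ← IsScalarTower.algebraMap_apply,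
        Derivation.map_algebraMap]
    rw [hD]
    have := congrArg (algebraMap (RatFunc ℂ) (AlgebraicClosure (RatFunc ℂ))) (res_sys ω φ n b c i j m)
    rw [map_sum, map_mul] at this
    simp only [ite_self, sub_zero, Matrix.map_apply, RingHom.id_apply]
    rw [← this]
    exact sum_congr rfl fun l _ => (map_mul _ _ _).symm

end charzero

section charp

variable {p : ℕ} [hp : Fact p.Prime]
variable {A : Type*} [CommRing A] {ν : Type*} [Fintype ν] [DecidableEq ν]
variable (ω : Module.Basis ν ℤ A)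

/-- An element lying in all primes above `p` is divisible by `p` when `p` does not divide the
discriminant. -/
lemma coord_zero (hdisc : ((Algebra.discr ℤ ω : ℤ) : ZMod p) ≠ 0) (z : ν → ℤ)
    (hz : ∀ P : Ideal A, P.IsPrime → (p : A) ∈ P → ∑ l, z l • ω l ∈ P) (l : ν) :
    ((z l : ℤ) : ZMod p) = 0 := by
  set x := ∑ l, z l • ω l with hx
  have hrad : x ∈ (Ideal.span {(p : A)}).radical := by
    rw [Ideal.radical_eq_sInf, Ideal.mem_sInf]
    intro P hP
    exact hz P hP.2 (hP.1 (Ideal.subset_span rfl))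
  obtain ⟨N, hN⟩ := hrad
  obtain ⟨a, ha⟩ := Ideal.mem_span_singleton'.1 hN
  -- traces
  have htr : ∀ j, ((Algebra.trace ℤ A (x * ω j) : ℤ) : ZMod p) = 0 := by
    intro j
    rw [Algebra.trace_eq_matrix_trace ω]
    set M := Algebra.leftMulMatrix ω (x * ω j) with hM
    have hnil : IsNilpotent (M.map (Int.castRingHom (ZMod p))) := by
      refine ⟨N, ?_⟩
      have h1 : M ^ N = (p : ℤ) • Algebra.leftMulMatrix ω (a * ω j ^ N) := by
        rw [hM, ← map_pow, mul_pow, ← ha, ← map_zsmul]
        congr 1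
        rw [zsmul_eq_mul]
        push_cast
        ring
      have h2 : M.map (Int.castRingHom (ZMod p)) ^ N = (M ^ N).map (Int.castRingHom (ZMod p)) := by
        exact (map_pow (Int.castRingHom (ZMod p)).mapMatrix M N).symm
      rw [h2, h1]
      ext u v
      rw [Matrix.map_apply, Matrix.smul_apply, smul_eq_mul, map_mul]
      simp
    have h3 := Matrix.isNilpotent_trace_of_isNilpotent hnil
    have h4 : (M.map (Int.castRingHom (ZMod p))).trace = ((M.trace : ℤ) : ZMod p) := by
      simp [Matrix.trace]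
    rw [h4] at h3
    exact h3.eq_zero
  set T := (Algebra.traceMatrix ℤ ω).map (Int.castRingHom (ZMod p)) with hT
  have hdet : T.det ≠ 0 := by
    rw [hT]
    have : ((Algebra.traceMatrix ℤ ω).map (Int.castRingHom (ZMod p))).det =
        ((Algebra.discr ℤ ω : ℤ) : ZMod p) := by
      rw [Algebra.discr_def]
      exact ((Int.castRingHom (ZMod p)).map_det _).symm
    rw [this]
    exact hdisc
  have hvec : Matrix.vecMul (fun l => ((z l : ℤ) : ZMod p)) T = 0 := by
    funext j
    rw [Matrix.vecMul, dotProduct, Pi.zero_apply, ← htr j, hx, sum_mul, map_sum]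
    push_cast
    refine sum_congr rfl fun l _ => ?_
    rw [smul_mul_assoc, map_zsmul, hT, Matrix.map_apply, Algebra.traceMatrix_apply,
      Algebra.traceForm_apply]
    simp
  have := Matrix.eq_zero_of_vecMul_eq_zero hdet hvec
  exact congrFun this l

end charp

end Pool.Agent.L5helper79.PCR
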