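import Mathlib
import Pool.Agent.L5helper79.PCR.Res

set_option autoImplicit false

/-!
Restriction of scalars in characteristic `p`.
-/

open Finset Polynomial Pool.Agent.W432.PC

namespace Pool.Agent.L5helper79.PCR

section charp

variable {p : ℕ} [hp : Fact p.Prime] {k : Type*} [Field k] [Algebra (ZMod p) k]

lemma aeval_X_map (q : (ZMod p)[X]) : aeval (RatFunc.X : RatFunc k) q =
    algebraMap k[X] (RatFunc k) (q.map (algebraMap (ZMod p) k)) := by
  have h1 : algebraMap k[X] (RatFunc k) (q.map (algebraMap (ZMod p) k)) =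
      aeval (RatFunc.X : RatFunc k) (q.map (algebraMap (ZMod p) k)) := by
    rw [← RatFunc.algebraMap_X, Polynomial.aeval_algebraMap_apply, aeval_X_left_apply]
  rw [h1, aeval_map_algebraMap]

lemma aeval_X_inj : Function.Injective
    (aeval (RatFunc.X : RatFunc k) : (ZMod p)[X] →ₐ[ZMod p] RatFunc k) := by
  intro a b hab
  rw [aeval_X_map, aeval_X_map] at hab
  have h1 := (IsFractionRing.injective k[X] (RatFunc k)) hab
  exact map_injective _ (algebraMap (ZMod p) k).injective h1

variable {A : Type*} [CommRing A] {ν : Type*} [Fintype ν] [DecidableEq ν]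
variable (ω : Module.Basis ν ℤ A) {ι : Type*} [Fintype ι] [DecidableEq ι]

omit [DecidableEq ν] in
lemma one_field (φ : A →+* k) (n : ℕ) (b c : Matrix ι ι A)
    (h : PCurvZero (redMat φ n b) (redMat φ n c)) (y : ι × ν → RatFunc (ZMod p)) (i : ι)
    (a : ν → (ZMod p)[X]) (d : (ZMod p)[X])
    (ha : ∀ l, algebraMap (ZMod p)[X] (RatFunc (ZMod p)) (a l) =
      algebraMap (ZMod p)[X] (RatFunc (ZMod p)) d *
        (nabla (redMat (Int.castRingHom (ZMod p)) n (res ω b))
          (redMat (Int.castRingHom (ZMod p)) n (res ω c)))^[p] y (i, l)) (m : ℕ) :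
    φ (∑ l, (((a l).coeff m).val : ℤ) • ω l) = 0 := by
  have hck : CharP k p := charP_of_injective_algebraMap (algebraMap (ZMod p) k).injective p
  set θ := theta (RatFunc.X : RatFunc k) (aeval_X_inj (p := p) (k := k)) with hθ
  have hθX : θ RatFunc.X = RatFunc.X := theta_X _ _
  have hddx : ddx k (RatFunc.X : RatFunc k) = 1 := by
    rw [← RatFunc.algebraMap_X, ddx_algebraMap, derivative_X, map_one]
  have hθD : ∀ f, toZ (ddx k) ((θ : RatFunc (ZMod p) →+* RatFunc k) f) =
      (θ : RatFunc (ZMod p) →+* RatFunc k) (toZ (ddx (ZMod p)) f) := by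
    intro f
    have := der_theta θ ((ddx k).restrictScalars (ZMod p)) f
    rw [hθX] at this
    change ddx k (θ f) = θ (ddx (ZMod p) f)
    change ddx k (θ f) = ddx k RatFunc.X * θ (ddx (ZMod p) f) at this
    rw [this, hddx, one_mul]
  have hC : ∀ z : ℤ, θ (RatFunc.C (z : ZMod p)) = RatFunc.C (z : k) := by
    intro z
    rw [map_intCast, map_intCast, map_intCast]
  have hCn : ∀ z : ℕ, θ (RatFunc.C (z : ZMod p)) = RatFunc.C (z : k) := by
    intro z
    rw [map_natCast, map_natCast, map_natCast]
  have hsys : ∀ x y, θ (sysMat (redMat (Int.castRingHom (ZMod p)) n (res ω b))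
      (redMat (Int.castRingHom (ZMod p)) n (res ω c)) x y) =
      sysMat (redMat (Int.castRingHom k) n (res ω b)) (redMat (Int.castRingHom k) n (res ω c))
        x y := by
    intro x y
    simp only [sysMat, redMat, Matrix.of_apply, eq_intCast, map_add, map_div₀, map_sub, map_one,
      hθX, hC, hCn]
  have hpush := push_conn (toZ (ddx (ZMod p))) (toZ (ddx k)) (θ : RatFunc (ZMod p) →+* RatFunc k)
    hθD (fun l : ν => RatFunc.C (φ (ω l)))
    (sysMat (redMat (Int.castRingHom (ZMod p)) n (res ω b))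
      (redMat (Int.castRingHom (ZMod p)) n (res ω c)))
    (sysMat (redMat φ n b) (redMat φ n c)) (by
      intro i j m
      have hD : toZ (ddx k) (RatFunc.C (φ (ω m))) = 0 := by
        rw [toZ_apply, ← RatFunc.algebraMap_C, ddx_algebraMap, derivative_C, map_zero]
      rw [hD, ite_self, sub_zero, ← res_sys ω φ n b c i j m]
      refine sum_congr rfl fun l _ => ?_
      rw [← hsys]
      rfl)
  have hiter : ∀ q : ℕ, ∀ y, push (θ : RatFunc (ZMod p) →+* RatFunc k)
      (fun l : ν => RatFunc.C (φ (ω l)))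
      ((nabla (redMat (Int.castRingHom (ZMod p)) n (res ω b))
        (redMat (Int.castRingHom (ZMod p)) n (res ω c)))^[q] y) =
      (nabla (redMat φ n b) (redMat φ n c))^[q] (push (θ : RatFunc (ZMod p) →+* RatFunc k)
        (fun l : ν => RatFunc.C (φ (ω l))) y) := by
    intro q
    induction q with
    | zero => intro y; rfl
    | succ q ih =>
      intro y
      rw [Function.iterate_succ_apply, Function.iterate_succ_apply, ih, nabla_eq_conn,
        nabla_eq_conn, hpush]
  have hr : ringChar k = p := (ringChar.eq k p)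
  have h1 := h (push (θ : RatFunc (ZMod p) →+* RatFunc k) (fun l : ν => RatFunc.C (φ (ω l))) y)
  rw [hr, ← hiter] at h1
  have h2 := congrFun h1 i
  simp only [push, Pi.zero_apply] at h2
  have h3 : ∑ l, RatFunc.C (φ (ω l)) * θ (algebraMap (ZMod p)[X] (RatFunc (ZMod p)) (a l)) = 0 := by
    have e : ∀ l, RatFunc.C (φ (ω l)) * θ (algebraMap (ZMod p)[X] (RatFunc (ZMod p)) (a l)) =
        θ (algebraMap (ZMod p)[X] (RatFunc (ZMod p)) d) * (RatFunc.C (φ (ω l)) *
        θ ((nabla (redMat (Int.castRingHom (ZMod p)) n (res ω b))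
          (redMat (Int.castRingHom (ZMod p)) n (res ω c)))^[p] y (i, l))) := by
      intro l
      rw [ha, map_mul]
      ring
    rw [sum_congr rfl fun l _ => e l, ← mul_sum]
    have h2' : ∑ l, RatFunc.C (φ (ω l)) *
        θ ((nabla (redMat (Int.castRingHom (ZMod p)) n (res ω b))
          (redMat (Int.castRingHom (ZMod p)) n (res ω c)))^[p] y (i, l)) = 0 := h2
    rw [h2', mul_zero]
  have h4 : ∑ l, C (φ (ω l)) * (a l).map (algebraMap (ZMod p) k) = 0 := by
    apply IsFractionRing.injective k[X] (RatFunc k)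
    rw [map_zero, ← h3, map_sum]
    refine sum_congr rfl fun l _ => ?_
    rw [map_mul, theta_algebraMap, aeval_X_map, RatFunc.algebraMap_C]
  have h5 := congrArg (fun q => q.coeff m) h4
  simp only [finsetSum_coeff, coeff_C_mul, coeff_map, coeff_zero] at h5
  rw [map_sum, ← h5]
  refine sum_congr rfl fun l _ => ?_
  rw [zsmul_eq_mul, map_mul, map_intCast, mul_comm]
  congr 1
  rw [Int.cast_natCast]
  conv_rhs => rw [← ZMod.natCast_zmod_val ((a l).coeff m)]
  rw [map_natCast]

theorem pcurv_res (n : ℕ) (b c : Matrix ι ι A)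
    (hdisc : ((Algebra.discr ℤ ω : ℤ) : ZMod p) ≠ 0)
    (hmax : ∀ P : Ideal A, P.IsPrime → (p : A) ∈ P → P.IsMaximal)
    (h : ∀ (P : Ideal A) (_ : P.IsMaximal), (p : A) ∈ P →
      letI := Ideal.Quotient.field P
      PCurvZero (redMat (Ideal.Quotient.mk P) n b) (redMat (Ideal.Quotient.mk P) n c)) :
    PCurvZero (redMat (Int.castRingHom (ZMod p)) n (res ω b))
      (redMat (Int.castRingHom (ZMod p)) n (res ω c)) := by
  intro y
  rw [ZMod.ringChar_zmod_n]
  set w := (nabla (redMat (Int.castRingHom (ZMod p)) n (res ω b))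
      (redMat (Int.castRingHom (ZMod p)) n (res ω c)))^[p] y with hw
  funext ⟨i, l₀⟩
  obtain ⟨d, hd⟩ := IsLocalization.exist_integer_multiples_of_finite
    (nonZeroDivisors (ZMod p)[X]) (fun l : ν => w (i, l))
  choose a ha using hd
  have hd0 : algebraMap (ZMod p)[X] (RatFunc (ZMod p)) d ≠ 0 :=
    IsFractionRing.to_map_ne_zero_of_mem_nonZeroDivisors d.2
  have ha' : ∀ l, algebraMap (ZMod p)[X] (RatFunc (ZMod p)) (a l) =
      algebraMap (ZMod p)[X] (RatFunc (ZMod p)) d * w (i, l) := by
    intro l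
    rw [ha l, Algebra.smul_def]
  have hcoef : a l₀ = 0 := by
    ext m
    have key := coord_zero ω hdisc (fun l => (((a l).coeff m).val : ℤ)) (by
      intro P hP hpP
      have hPm := hmax P hP hpP
      have hz := h P hPm hpP
      let _ := Ideal.Quotient.field P
      have hcp : CharP (A ⧸ P) p := by
        have h0 : ((p : ℕ) : A ⧸ P) = 0 := by
          have := Ideal.Quotient.eq_zero_iff_mem.2 hpP
          rwa [map_natCast] at this
        have hcp' := CharP.exists (A ⧸ P)
        obtain ⟨q, hq⟩ := hcp'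
        have hdvd : q ∣ p := (CharP.cast_eq_zero_iff (A ⧸ P) q p).1 h0
        rcases (Nat.dvd_prime hp.out).1 hdvd with h1 | h1
        · subst h1
          have := hq
          exact absurd rfl (CharP.char_ne_one (A ⧸ P) 1)
        · rwa [h1] at hq
      let _ : Algebra (ZMod p) (A ⧸ P) := ZMod.algebra (A ⧸ P) p
      have h1 := one_field ω (Ideal.Quotient.mk P) n b c hz y i a d ha' m
      rw [Ideal.Quotient.eq_zero_iff_mem] at h1
      exact h1) l₀
    rw [coeff_zero]
    rw [Int.cast_natCast, ZMod.natCast_zmod_val] at key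
    exact key
  have h3 := ha' l₀
  rw [hcoef, map_zero] at h3
  exact (mul_eq_zero.1 h3.symm).resolve_left hd0

end charp

end Pool.Agent.L5helper79.PCR
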