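import Mathlib
import Pool.Agent.L5helper79.PCR.ResP

set_option autoImplicit false

/-!
Assembly: from a number field and arbitrary residues to `ℚ` and residues of order `3` and `2`.
-/

open Finset Polynomial Pool.Agent.W432.PC NumberField

namespace Pool.Agent.L5helper79.PCR

section reindex

lemma redMat_submatrix {R k : Type*} [CommRing R] [Field k] {ι κ : Type*} (φ : R →+* k) (n : ℕ)
    (b : Matrix ι ι R) (e : κ → ι) :
    redMat φ n (b.submatrix e e) = (redMat φ n b).submatrix e e := rfl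

lemma sysMat_submatrix {k : Type*} [Field k] {ι κ : Type*} (b c : Matrix ι ι k) (e : κ → ι) :
    sysMat (b.submatrix e e) (c.submatrix e e) = (sysMat b c).submatrix e e := rfl

lemma nabla_submatrix {k : Type*} [Field k] {ι κ : Type*} [Fintype ι] [Fintype κ]
    (b c : Matrix ι ι k) (e : κ ≃ ι) (y : ι → RatFunc k) :
    nabla (b.submatrix e e) (c.submatrix e e) (y ∘ e) = nabla b c y ∘ e := by
  funext i
  simp only [nabla, Function.comp_apply, sysMat_submatrix, Matrix.submatrix_apply]
  congr 1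
  exact e.sum_comp (fun j => sysMat b c (e i) j * y j)

lemma pCurvZero_submatrix {k : Type*} [Field k] {ι κ : Type*} [Fintype ι] [Fintype κ]
    (b c : Matrix ι ι k) (e : κ ≃ ι) (h : PCurvZero b c) :
    PCurvZero (b.submatrix e e) (c.submatrix e e) := by
  intro y
  have hiter : ∀ q : ℕ, ∀ y : ι → RatFunc k,
      (nabla (b.submatrix e e) (c.submatrix e e))^[q] (y ∘ e) = ((nabla b c)^[q] y) ∘ e := by
    intro q
    induction q with
    | zero => intro y; rfl
    | succ q ih =>
      intro y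
      rw [Function.iterate_succ_apply, Function.iterate_succ_apply, nabla_submatrix, ih]
  have hy : y = (y ∘ e.symm) ∘ e := by
    funext i
    simp
  rw [hy, hiter, h]
  rfl

lemma algSol_submatrix {ι κ : Type*} [Fintype ι] [Fintype κ] [DecidableEq ι] [DecidableEq κ]
    (b c : Matrix ι ι ℂ) (e : κ ≃ ι) (h : AlgSol (b.submatrix e e) (c.submatrix e e)) :
    AlgSol b c := by
  obtain ⟨δ, F, h1, h2, h3⟩ := h
  refine ⟨δ, F.submatrix e.symm e.symm, h1, ?_, ?_⟩
  · rw [Matrix.det_submatrix_equiv_self]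
    exact h2
  · ext i j
    have := congrFun (congrFun h3 (e.symm i)) (e.symm j)
    simp only [Matrix.map_apply, Matrix.mul_apply, sysMat_submatrix, Matrix.submatrix_apply,
      Equiv.apply_symm_apply] at this ⊢
    rw [this]
    exact (e.symm.sum_comp (fun l => (algebraMap (RatFunc ℂ) (AlgebraicClosure (RatFunc ℂ)))
      (sysMat b c i (e l)) * F l (e.symm j))).symm.trans (by simp)

end reindex

/-- `b (3 b + n) (3 b + 2 n) = 0` and `c (2 c + n) = 0`. -/
def OrderThreeTwo {ι : Type*} [Fintype ι] [DecidableEq ι] (n : ℕ) (b c : Matrix ι ι ℤ) : Prop :=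
  b * (3 • b + n • 1) * (3 • b + (2 * n) • 1) = 0 ∧ c * (2 • c + n • 1) = 0

/-- The `p`-curvature of the system with residues `b / n`, `c / n` over `ℚ` vanishes for all
but finitely many primes `p`. -/
def PCurvQ {ι : Type*} [Fintype ι] (n : ℕ) (b c : Matrix ι ι ℤ) : Prop :=
  {p : ℕ | ∃ _ : Fact p.Prime, ¬ PCurvZero (redMat (Int.castRingHom (ZMod p)) n b)
    (redMat (Int.castRingHom (ZMod p)) n c)}.Finite

/-- The `p`-curvature of the system with residues `b / n`, `c / n` over the number field `K`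
vanishes for all but finitely many maximal ideals of the ring of integers. -/
def PCurvK {K : Type*} [Field K] {ι : Type*} [Fintype ι] (n : ℕ) (b c : Matrix ι ι (𝓞 K)) :
    Prop :=
  {P : Ideal (𝓞 K) | ∃ _ : P.IsMaximal, ¬ (letI := Ideal.Quotient.field P
    PCurvZero (redMat (Ideal.Quotient.mk P) n b) (redMat (Ideal.Quotient.mk P) n c))}.Finite

lemma rel_submatrix {ι κ : Type*} [Fintype ι] [Fintype κ] [DecidableEq ι] [DecidableEq κ] (n : ℕ)
    (b c : Matrix ι ι ℤ) (e : κ ≃ ι) (h : OrderThreeTwo n b c) :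
    OrderThreeTwo n (b.submatrix e e) (c.submatrix e e) := by
  have hre : ∀ M : Matrix ι ι ℤ, Matrix.reindexAlgEquiv ℤ ℤ e.symm M = M.submatrix e e :=
    fun M => rfl
  obtain ⟨hb, hc⟩ := h
  constructor
  · have := congrArg (Matrix.reindexAlgEquiv ℤ ℤ e.symm) hb
    rw [map_mul, map_mul, map_add, map_add, map_nsmul, map_nsmul, map_nsmul, map_one, map_zero,
      hre] at this
    exact this
  · have := congrArg (Matrix.reindexAlgEquiv ℤ ℤ e.symm) hc
    rw [map_mul, map_add, map_nsmul, map_nsmul, map_one, map_zero, hre] at this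
    exact this

/-- The relations for the push-forward. -/
lemma rel_push {κ : Type*} [Fintype κ] [DecidableEq κ] (n : ℕ) (b c : Matrix κ κ ℤ) :
    OrderThreeTwo (108 * n) (pushB (n : ℤ) b c) (pushC (n : ℤ) b c) := by
  constructor
  · have h1 := pushB_rel (n : ℤ) b c
    have e1 : 3 • pushB (n : ℤ) b c + (108 * n) • 1 =
        (3 : ℤ) • (pushB (n : ℤ) b c + (36 * (n : ℤ)) • 1) := by
      rw [smul_add, smul_smul, ← natCast_zsmul, ← natCast_zsmul]
      push_cast
      ring_nf
    have e2 : 3 • pushB (n : ℤ) b c + (2 * (108 * n)) • 1 =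
        (3 : ℤ) • (pushB (n : ℤ) b c + (72 * (n : ℤ)) • 1) := by
      rw [smul_add, smul_smul, ← natCast_zsmul, ← natCast_zsmul]
      push_cast
      ring_nf
    rw [e1, e2, Matrix.mul_smul, Matrix.mul_smul, Matrix.smul_mul, h1, smul_zero, smul_zero]
  · have h1 := pushC_rel (n : ℤ) b c
    have e1 : 2 • pushC (n : ℤ) b c + (108 * n) • 1 =
        (2 : ℤ) • (pushC (n : ℤ) b c + (54 * (n : ℤ)) • 1) := by
      rw [smul_add, smul_smul, ← natCast_zsmul, ← natCast_zsmul]
      push_cast
      ring_nf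
    rw [e1, Matrix.mul_smul, h1, smul_zero]

/-- The `p`-curvature of the push-forward. -/
lemma pcurvQ_push {κ : Type*} [Fintype κ] [DecidableEq κ] (n : ℕ) (b c : Matrix κ κ ℤ)
    (hn : 0 < n) (h : PCurvQ n b c) :
    PCurvQ (108 * n) (pushB (n : ℤ) b c) (pushC (n : ℤ) b c) := by
  refine (Set.Finite.union h (Set.finite_le_nat (6 * n))).subset ?_
  rintro p ⟨hp, hP⟩
  by_cases hle : p ≤ 6 * n
  · exact Or.inr hle
  · left
    refine ⟨hp, fun hcon => hP ?_⟩
    have hne : ∀ m : ℕ, 0 < m → m < p → (m : ZMod p) ≠ 0 := by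
      intro m hm1 hm2 h0
      rw [ZMod.natCast_eq_zero_iff] at h0
      exact absurd (Nat.le_of_dvd hm1 h0) (by omega)
    have h2 : (2 : ZMod p) ≠ 0 := by exact_mod_cast hne 2 (by omega) (by omega)
    have h3 : (3 : ZMod p) ≠ 0 := by exact_mod_cast hne 3 (by omega) (by omega)
    exact pcurv_push h2 h3 (by rw [ZMod.ringChar_zmod_n]; exact hp.out) n
      (hne n hn (by omega)) b c hcon

/-- The `p`-curvature of the restriction of scalars. -/
lemma pcurvQ_res {K : Type} [Field K] [NumberField K] {ι : Type*} [Fintype ι] [DecidableEq ι]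
    (n : ℕ) (b c : Matrix ι ι (𝓞 K)) (h : PCurvK n b c) :
    PCurvQ n (res (RingOfIntegers.basis K) b) (res (RingOfIntegers.basis K) c) := by
  classical
  set ω := RingOfIntegers.basis K with hω
  have hdisc : Algebra.discr ℤ ω ≠ 0 := by
    have := discr_ne_zero K
    rwa [← discr_eq_discr K ω] at this
  refine ((Set.Finite.image (fun P => ringChar (𝓞 K ⧸ P)) h).union
    (Set.finite_le_nat (Algebra.discr ℤ ω).natAbs)).subset ?_
  rintro p ⟨hp, hP⟩
  by_cases hle : p ≤ (Algebra.discr ℤ ω).natAbs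
  · exact Or.inr hle
  · left
    by_contra hcon
    apply hP
    apply pcurv_res ω n b c
    · intro h0
      rw [ZMod.intCast_zmod_eq_zero_iff_dvd] at h0
      have := Int.natAbs_dvd_natAbs.2 h0
      rw [Int.natAbs_natCast] at this
      exact hle (Nat.le_of_dvd (Int.natAbs_pos.2 hdisc) this)
    · intro P hP' hpP
      refine hP'.isMaximal ?_
      rintro rfl
      rw [Ideal.mem_bot] at hpP
      exact hp.out.ne_zero (by exact_mod_cast hpP)
    · intro P hPm hpP
      by_contra hnot
      apply hcon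
      refine ⟨P, ⟨hPm, hnot⟩, ?_⟩
      have h0 : ((p : ℕ) : 𝓞 K ⧸ P) = 0 := by
        have := Ideal.Quotient.eq_zero_iff_mem.2 hpP
        rwa [map_natCast] at this
      have hdvd := ringChar.dvd h0
      have hnt : Nontrivial (𝓞 K ⧸ P) := Ideal.Quotient.nontrivial_iff.2 hPm.ne_top
      rcases (Nat.dvd_prime hp.out).1 hdvd with h1 | h1
      · exact absurd h1 (CharP.ringChar_ne_one)
      · exact h1

/-- The system over a number field and the associated system over `ℚ`. -/
theorem pointwise (K : Type) [Field K] [NumberField K] (r n : ℕ) (hn : 0 < n)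
    (b c : Matrix (Fin r) (Fin r) (𝓞 K)) :
    ∃ b' c' : Matrix (Fin (6 * (r * Module.finrank ℚ K))) (Fin (6 * (r * Module.finrank ℚ K))) ℤ,
      OrderThreeTwo (108 * n) b' c' ∧ (PCurvK n b c → PCurvQ (108 * n) b' c') ∧
      ∀ σ : K →+* ℂ, AlgSol (redMat (Int.castRingHom ℂ) (108 * n) b')
        (redMat (Int.castRingHom ℂ) (108 * n) c') →
        AlgSol (redMat (σ.comp (algebraMap (𝓞 K) K)) n b)
          (redMat (σ.comp (algebraMap (𝓞 K) K)) n c) := by
  classical
  set ω := RingOfIntegers.basis K with hω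
  have hcard : Fintype.card (Fin (6 * (r * Module.finrank ℚ K))) =
      Fintype.card ((Fin r × Module.Free.ChooseBasisIndex ℤ (𝓞 K)) × Fin 6) := by
    rw [Fintype.card_prod, Fintype.card_prod, Fintype.card_fin, Fintype.card_fin,
      Fintype.card_fin, ← RingOfIntegers.rank K, Module.finrank_eq_card_chooseBasisIndex]
    ring
  set e := Fintype.equivOfCardEq hcard with he
  set b₁ := res ω b with hb₁
  set c₁ := res ω c with hc₁
  refine ⟨(pushB (n : ℤ) b₁ c₁).submatrix e e, (pushC (n : ℤ) b₁ c₁).submatrix e e,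
    rel_submatrix _ _ _ e (rel_push n b₁ c₁), ?_, ?_⟩
  · intro h
    refine (pcurvQ_push n b₁ c₁ hn (pcurvQ_res n b c h)).subset ?_
    rintro p ⟨hp, hP⟩
    refine ⟨hp, fun hcon => hP ?_⟩
    rw [redMat_submatrix, redMat_submatrix]
    exact pCurvZero_submatrix (redMat (Int.castRingHom (ZMod p)) (108 * n) (pushB (n : ℤ) b₁ c₁))
      (redMat (Int.castRingHom (ZMod p)) (108 * n) (pushC (n : ℤ) b₁ c₁)) e hcon
  · intro σ h
    rw [redMat_submatrix, redMat_submatrix] at h
    have h1 := algSol_submatrix (redMat (Int.castRingHom ℂ) (108 * n) (pushB (n : ℤ) b₁ c₁))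
      (redMat (Int.castRingHom ℂ) (108 * n) (pushC (n : ℤ) b₁ c₁)) e h
    exact algSol_res ω (σ.comp (algebraMap (𝓞 K) K)) n b c (algSol_push n hn b₁ c₁ h1)

end Pool.Agent.L5helper79.PCR
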