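import Mathlib
import Pool.Agent.L5helper79.PCR.Final

set_option autoImplicit false

/-!
Diagonalisation of the first residue.
-/

open Finset Polynomial Pool.Agent.W432.PC NumberField
open scoped Kronecker

namespace Pool.Agent.L5helper79.PCR

/-- The matrix with the vectors of a basis as columns is invertible. -/
lemma det_basis_ne_zero {ι : Type*} [Fintype ι] [DecidableEq ι]
    (v : Module.Basis ι ℚ (ι → ℚ)) : (Matrix.of fun i j => v j i).det ≠ 0 := by
  have h5 : IsUnit (Matrix.of fun i j => v j i : Matrix ι ι ℚ) := by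
    rw [← Matrix.linearIndependent_cols_iff_isUnit]
    exact v.linearIndependent
  rw [Matrix.isUnit_iff_isUnit_det] at h5
  exact h5.ne_zero

/-- A matrix whose columns are eigenvectors. -/
lemma mul_of_eigen {ι : Type*} [Fintype ι] [DecidableEq ι] (A : Matrix ι ι ℚ)
    (v : ι → ι → ℚ) (μ : ι → ℚ) (h : ∀ j, A.mulVec (v j) = μ j • v j) :
    A * (Matrix.of fun i j => v j i) = (Matrix.of fun i j => v j i) * Matrix.diagonal μ := by
  ext i j
  have h7 := congrFun (h j) i
  rw [Matrix.mul_diagonal, Matrix.mul_apply]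
  simp only [Matrix.of_apply]
  rw [Pi.smul_apply, smul_eq_mul] at h7
  rw [mul_comm (v j i), ← h7]
  rfl

/-- A basis adapted to a direct sum decomposition. -/
lemma exists_adapted {α : Type*} [Fintype α] [DecidableEq α] {E : Type*} [AddCommGroup E]
    [Module ℚ E] [FiniteDimensional ℚ E] (m : ℕ) (V : α → Submodule ℚ E)
    (hint : DirectSum.IsInternal V) (hfin : ∀ a, Module.finrank ℚ (V a) = m) :
    ∃ v : Module.Basis (α × Fin m) ℚ E, ∀ x, v x ∈ V x.1 := by
  have w : ∀ a, Module.Basis (Fin m) ℚ (V a) :=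
    fun a => Module.finBasisOfFinrankEq ℚ (V a) (hfin a)
  refine ⟨(hint.collectedBasis w).reindex (Equiv.sigmaEquivProd _ _), ?_⟩
  intro x
  rw [Module.Basis.reindex_apply]
  exact hint.collectedBasis_mem w ((Equiv.sigmaEquivProd α (Fin m)).symm x)

/-- A matrix with `A (A - 1) (A - 2) = 0` and the traces of `diag (0, 1, 2) ⊗ 1` is conjugate to
this matrix. -/
lemma exists_diag (R : ℕ) (A : Matrix (Fin 3 × Fin (2 * R)) (Fin 3 × Fin (2 * R)) ℚ)
    (h : A * (A - 1) * (A - 2) = 0) (t1 : A.trace = 6 * R) (t2 : (A * A).trace = 10 * R) :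
    ∃ G : Matrix (Fin 3 × Fin (2 * R)) (Fin 3 × Fin (2 * R)) ℚ, G.det ≠ 0 ∧
      A * G = G * Matrix.diagonal fun x => ((x.1 : ℕ) : ℚ) := by
  classical
  set E : Fin 3 → Matrix (Fin 3 × Fin (2 * R)) (Fin 3 × Fin (2 * R)) ℚ :=
    ![(1 / 2 : ℚ) • ((A - 1) * (A - 2)), -(A * (A - 2)), (1 / 2 : ℚ) • (A * (A - 1))] with hE
  have h3 : A * A * A = 3 • (A * A) - 2 • A := by
    have : A * (A - 1) * (A - 2) = A * A * A - 3 • (A * A) + 2 • A := by
      noncomm_ring
    rw [this] at h
    have := sub_eq_zero.1 (show A * A * A - (3 • (A * A) - 2 • A) = 0 by rw [← h]; abel)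
    exact this
  have hAE : ∀ a : Fin 3, A * E a = ((a : ℕ) : ℚ) • E a := by
    intro a
    fin_cases a
    · simp only [hE, Fin.zero_eta, Matrix.cons_val_zero, Fin.coe_ofNat_eq_mod, Nat.zero_mod,
        Nat.cast_zero, zero_smul, Matrix.mul_smul]
      rw [← mul_assoc, h, smul_zero]
    · simp only [hE, Fin.mk_one, Matrix.cons_val_one, Matrix.cons_val_zero, Fin.coe_ofNat_eq_mod,
        Nat.one_mod, Nat.cast_one, one_smul]
      have e : A * -(A * (A - 2)) = -(A * A * A) + 2 • (A * A) := by noncomm_ring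
      rw [e, h3]
      noncomm_ring
    · simp only [hE, Fin.reduceFinMk, Matrix.cons_val]
      have e : A * ((1 / 2 : ℚ) • (A * (A - 1))) = (1 / 2 : ℚ) • (A * A * A - A * A) := by
        rw [Matrix.mul_smul]; congr 1; noncomm_ring
      have e' : A * (A - 1) = A * A - A := by noncomm_ring
      rw [e, h3, e']
      push_cast
      module
  have hsum : E 0 + E 1 + E 2 = 1 := by
    have e1 : (A - 1) * (A - 2) = A * A - 3 • A + 2 • 1 := by noncomm_ring
    have e2 : A * (A - 2) = A * A - 2 • A := by noncomm_ring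
    have e3 : A * (A - 1) = A * A - A := by noncomm_ring
    simp only [hE, Matrix.cons_val_zero, Matrix.cons_val_one, Matrix.cons_val]
    rw [e1, e2, e3]
    module
  set f : Module.End ℚ (Fin 3 × Fin (2 * R) → ℚ) := Matrix.toLin' A with hf
  set V : Fin 3 → Submodule ℚ (Fin 3 × Fin (2 * R) → ℚ) := fun a =>
    f.eigenspace ((a : ℕ) : ℚ) with hV
  have hmem : ∀ (a : Fin 3) (x), (E a).mulVec x ∈ V a := by
    intro a x
    rw [hV, Module.End.mem_eigenspace_iff, hf, Matrix.toLin'_apply, Matrix.mulVec_mulVec, hAE,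
      Matrix.smul_mulVec]
  have hid : ∀ (a : Fin 3) (x), x ∈ V a → (E a).mulVec x = x := by
    intro a x hx
    rw [hV, Module.End.mem_eigenspace_iff, hf, Matrix.toLin'_apply] at hx
    have hx1 : (A - 1).mulVec x = (((a : ℕ) : ℚ) - 1) • x := by
      rw [Matrix.sub_mulVec, hx, Matrix.one_mulVec, sub_smul, one_smul]
    have hx2 : (A - 2).mulVec x = (((a : ℕ) : ℚ) - 2) • x := by
      have h2 : (2 : Matrix (Fin 3 × Fin (2 * R)) (Fin 3 × Fin (2 * R)) ℚ) = (2 : ℚ) • 1 := by
        rw [ofNat_smul_eq_nsmul, nsmul_one, Nat.cast_ofNat]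
      rw [Matrix.sub_mulVec, hx, h2, Matrix.smul_mulVec, Matrix.one_mulVec, sub_smul]
    fin_cases a
    · simp only [hE, Fin.zero_eta, Matrix.cons_val_zero]
      rw [Matrix.smul_mulVec, ← Matrix.mulVec_mulVec, hx2, Matrix.mulVec_smul, hx1]
      simp only [Fin.zero_eta, Fin.coe_ofNat_eq_mod, Nat.zero_mod, Nat.cast_zero]
      module
    · simp only [hE, Fin.mk_one, Matrix.cons_val_one, Matrix.cons_val_zero]
      rw [Matrix.neg_mulVec, ← Matrix.mulVec_mulVec, hx2, Matrix.mulVec_smul, hx]
      simp only [Fin.mk_one, Fin.coe_ofNat_eq_mod, Nat.one_mod, Nat.cast_one]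
      module
    · simp only [hE, Fin.reduceFinMk, Matrix.cons_val]
      rw [Matrix.smul_mulVec, ← Matrix.mulVec_mulVec, hx1, Matrix.mulVec_smul, hx]
      simp only [Fin.reduceFinMk, Fin.coe_ofNat_eq_mod, Nat.reduceMod, Nat.cast_ofNat]
      module
  have hfin : ∀ a : Fin 3, Module.finrank ℚ (V a) = 2 * R := by
    intro a
    have hproj : LinearMap.IsProj (V a) (Matrix.toLin' (E a)) :=
      ⟨fun x => by rw [Matrix.toLin'_apply]; exact hmem a x,
        fun x hx => by rw [Matrix.toLin'_apply]; exact hid a x hx⟩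
    have h1 := hproj.trace
    rw [Matrix.trace_toLin'_eq] at h1
    have h2 : (E a).trace = 2 * (R : ℚ) := by
      have tone : (1 : Matrix (Fin 3 × Fin (2 * R)) (Fin 3 × Fin (2 * R)) ℚ).trace =
          6 * (R : ℚ) := by
        rw [Matrix.trace_one, Fintype.card_prod, Fintype.card_fin, Fintype.card_fin]
        push_cast; ring
      have e1 : (A - 1) * (A - 2) = A * A - (3 : ℚ) • A + (2 : ℚ) • 1 := by
        have e0 : (A - 1) * (A - 2) = A * A - 3 • A + 2 • 1 := by noncomm_ring
        rw [e0]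
        congr 1
      have e2 : A * (A - 2) = A * A - (2 : ℚ) • A := by
        rw [ofNat_smul_eq_nsmul]
        noncomm_ring
      have e3 : A * (A - 1) = A * A - A := by noncomm_ring
      fin_cases a
      · simp only [hE, Fin.zero_eta, Matrix.cons_val_zero]
        rw [e1]
        rw [Matrix.trace_smul, Matrix.trace_add, Matrix.trace_sub, Matrix.trace_smul,
          Matrix.trace_smul, t1, t2, tone]
        simp only [smul_eq_mul]
        ring
      · simp only [hE, Fin.mk_one, Matrix.cons_val_one, Matrix.cons_val_zero]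
        rw [e2]
        rw [Matrix.trace_neg, Matrix.trace_sub, Matrix.trace_smul, t1, t2]
        simp only [smul_eq_mul]
        ring
      · simp only [hE, Fin.reduceFinMk, Matrix.cons_val]
        rw [e3]
        rw [Matrix.trace_smul, Matrix.trace_sub, t1, t2]
        simp only [smul_eq_mul]
        ring
    rw [h2] at h1
    exact_mod_cast h1.symm
  have hint : DirectSum.IsInternal V := by
    rw [DirectSum.isInternal_submodule_iff_iSupIndep_and_iSup_eq_top]
    constructor
    · have hinj : Function.Injective fun a : Fin 3 => ((a : ℕ) : ℚ) := by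
        intro a b hab
        exact Fin.ext (Nat.cast_injective hab)
      exact f.eigenspaces_iSupIndep.comp hinj
    · rw [Submodule.eq_top_iff']
      intro x
      have hx : x = (E 0).mulVec x + (E 1).mulVec x + (E 2).mulVec x := by
        rw [← Matrix.add_mulVec, ← Matrix.add_mulVec, hsum, Matrix.one_mulVec]
      rw [hx]
      exact Submodule.add_mem _ (Submodule.add_mem _
        (Submodule.mem_iSup_of_mem 0 (hmem 0 x)) (Submodule.mem_iSup_of_mem 1 (hmem 1 x)))
        (Submodule.mem_iSup_of_mem 2 (hmem 2 x))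
  obtain ⟨v, hvmem⟩ := exists_adapted (2 * R) V hint hfin
  exact ⟨Matrix.of fun i j => v j i, det_basis_ne_zero v,
    mul_of_eigen A (fun j => v j) _ fun j => by
      have h6 := hvmem j
      rwa [hV, Module.End.mem_eigenspace_iff, hf, Matrix.toLin'_apply] at h6⟩

end Pool.Agent.L5helper79.PCR
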