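import Mathlib
import Pool.Agent.L5helper79.PCR.Final

set_option autoImplicit false

/-!
Constant gauge transformations.
-/

open Finset Polynomial Pool.Agent.W432.PC NumberField

namespace Pool.Agent.L5helper79.PCR

section gauge

variable {k : Type*} [Field k] {ι : Type*} [Fintype ι] [DecidableEq ι]

omit [Fintype ι] [DecidableEq ι] in
lemma sysMat_eq (b c : Matrix ι ι k) :
    sysMat b c = (RatFunc.X : RatFunc k)⁻¹ • b.map RatFunc.C +
      (RatFunc.X - 1 : RatFunc k)⁻¹ • c.map RatFunc.C := by
  ext i j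
  simp only [sysMat, Matrix.of_apply, Matrix.add_apply, Matrix.smul_apply, Matrix.map_apply,
    smul_eq_mul]
  ring

lemma sysMat_gauge (b c b' c' G : Matrix ι ι k) (hb : b * G = G * b') (hc : c * G = G * c') :
    sysMat b c * G.map RatFunc.C = G.map RatFunc.C * sysMat b' c' := by
  rw [sysMat_eq, sysMat_eq, Matrix.add_mul, Matrix.mul_add, Matrix.smul_mul, Matrix.smul_mul,
    Matrix.mul_smul, Matrix.mul_smul, ← Matrix.map_mul, ← Matrix.map_mul, ← Matrix.map_mul,
    ← Matrix.map_mul, hb, hc]

lemma nabla_eq (b c : Matrix ι ι k) (y : ι → RatFunc k) :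
    nabla b c y = (fun i => ddx k (y i)) - (sysMat b c).mulVec y := rfl

lemma ddx_mulVec (G : Matrix ι ι k) (y : ι → RatFunc k) :
    (fun i => ddx k ((G.map RatFunc.C).mulVec y i)) =
      (G.map RatFunc.C).mulVec fun i => ddx k (y i) := by
  funext i
  simp only [Matrix.mulVec, dotProduct, Matrix.map_apply, map_sum]
  refine Finset.sum_congr rfl fun j _ => ?_
  have h : (RatFunc.C (G i j) : RatFunc k) * y j = G i j • y j := by
    rw [Algebra.smul_def]; rfl
  have h' : (RatFunc.C (G i j) : RatFunc k) * ddx k (y j) = G i j • ddx k (y j) := by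
    rw [Algebra.smul_def]; rfl
  rw [h, h', Derivation.map_smul]

lemma nabla_gauge (b c b' c' G : Matrix ι ι k) (hb : b * G = G * b') (hc : c * G = G * c')
    (y : ι → RatFunc k) :
    nabla b c ((G.map RatFunc.C).mulVec y) = (G.map RatFunc.C).mulVec (nabla b' c' y) := by
  rw [nabla_eq, nabla_eq, Matrix.mulVec_sub, Matrix.mulVec_mulVec, Matrix.mulVec_mulVec,
    sysMat_gauge b c b' c' G hb hc, ddx_mulVec]

theorem pCurvZero_gauge (b c b' c' G : Matrix ι ι k) (hb : b * G = G * b')
    (hc : c * G = G * c') (hG : G.det ≠ 0) (h : PCurvZero b c) : PCurvZero b' c' := by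
  intro y
  have hiter : ∀ (q : ℕ) (y : ι → RatFunc k), (nabla b c)^[q] ((G.map RatFunc.C).mulVec y) =
      (G.map RatFunc.C).mulVec ((nabla b' c')^[q] y) := by
    intro q
    induction q with
    | zero => intro y; rfl
    | succ q ih =>
      intro y
      rw [Function.iterate_succ_apply, Function.iterate_succ_apply,
        nabla_gauge b c b' c' G hb hc, ih]
  have h1 := hiter (ringChar k) y
  rw [h] at h1
  have hdet : (G.map (RatFunc.C : k →+* RatFunc k)).det ≠ 0 := by
    have : (G.map (RatFunc.C : k →+* RatFunc k)).det = RatFunc.C G.det := by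
      rw [RingHom.map_det]; rfl
    rw [this]
    exact (_root_.map_ne_zero _).2 hG
  by_contra hne
  exact hdet (Matrix.exists_mulVec_eq_zero_iff.1 ⟨_, hne, h1.symm⟩)

end gauge

theorem algSol_gauge {ι : Type*} [Fintype ι] [DecidableEq ι] (b c b' c' G : Matrix ι ι ℂ)
    (hb : b * G = G * b') (hc : c * G = G * c') (hG : G.det ≠ 0) (h : AlgSol b' c') :
    AlgSol b c := by
  obtain ⟨δ, F, h1, h2, h3⟩ := h
  set a := algebraMap (RatFunc ℂ) (AlgebraicClosure (RatFunc ℂ)) with ha
  set Φ := (G.map RatFunc.C).map a with hΦ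
  have hdet : Φ.det ≠ 0 := by
    have : Φ.det = a (RatFunc.C G.det) := by
      rw [hΦ, RingHom.map_det, RingHom.map_det]; rfl
    rw [this]
    exact (_root_.map_ne_zero _).2 ((_root_.map_ne_zero _).2 hG)
  refine ⟨δ, Φ * F, h1, ?_, ?_⟩
  · rw [Matrix.det_mul]
    exact mul_ne_zero hdet h2
  · have e1 : (Φ * F).map δ = Φ * F.map δ := by
      ext i j
      simp only [Matrix.map_apply, Matrix.mul_apply, map_sum]
      refine Finset.sum_congr rfl fun l _ => ?_
      have e2 : ∀ f : AlgebraicClosure (RatFunc ℂ), Φ i l * f = G i l • f := by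
        intro f
        rw [Algebra.smul_def]
        rfl
      rw [e2, e2, Derivation.map_smul]
    have e4 : Φ * (sysMat b' c').map a = (sysMat b c).map a * Φ := by
      rw [hΦ, ← Matrix.map_mul, ← Matrix.map_mul, sysMat_gauge b c b' c' G hb hc]
    rw [e1, h3, ← Matrix.mul_assoc, ← Matrix.mul_assoc, e4]

end Pool.Agent.L5helper79.PCR
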