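import Mathlib
import Pool.Agent.L5helper79.PCR.Gauge
import Pool.Agent.L5helper79.PCR.Diag

set_option autoImplicit false

/-!
The projector form of the reduction.
-/

open Finset Polynomial Pool.Agent.W432.PC NumberField
open scoped Kronecker

namespace Pool.Agent.L5helper79.PCR

section traces

variable {ι : Type*} [Fintype ι] [DecidableEq ι]

lemma trace_pushB (n : ℤ) (b c : Matrix ι ι ℤ) :
    (pushB n b c).trace = -(216 * n * Fintype.card ι) := by
  have h1 : MU.trace = 0 := by decide +kernel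
  have h2 : MW.trace = 0 := by decide +kernel
  have h3 : (MU * MK).trace = 216 := by decide +kernel
  rw [pushB, Matrix.trace_sub, Matrix.trace_add, Matrix.trace_smul, Matrix.trace_kronecker,
    Matrix.trace_kronecker, Matrix.trace_kronecker, h1, h2, h3, Matrix.trace_one, smul_eq_mul]
  ring

lemma trace_pushC (n : ℤ) (b c : Matrix ι ι ℤ) :
    (pushC n b c).trace = -(162 * n * Fintype.card ι) := by
  have h1 : MU2.trace = 0 := by decide +kernel
  have h2 : MW2.trace = 0 := by decide +kernel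
  have h3 : (MU2 * MK).trace = 162 := by decide +kernel
  rw [pushC, Matrix.trace_sub, Matrix.trace_add, Matrix.trace_smul, Matrix.trace_kronecker,
    Matrix.trace_kronecker, Matrix.trace_kronecker, h1, h2, h3, Matrix.trace_one, smul_eq_mul]
  ring

lemma trace_pushB_sq (n : ℤ) (b c : Matrix ι ι ℤ) :
    (pushB n b c * pushB n b c).trace = 12960 * n ^ 2 * Fintype.card ι := by
  have h1 : (MU * MU).trace = 0 := by decide +kernel
  have h2 : (MU * MW).trace = 0 := by decide +kernel
  have h3 : (MW * MU).trace = 0 := by decide +kernel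
  have h4 : (MW * MW).trace = 0 := by decide +kernel
  have h5 : (MU * (MU * MK)).trace = 0 := by decide +kernel
  have h6 : (MW * (MU * MK)).trace = 0 := by decide +kernel
  have h7 : (MU * MK * MU).trace = 0 := by decide +kernel
  have h8 : (MU * MK * MW).trace = 0 := by decide +kernel
  have h9 : (MU * MK * (MU * MK)).trace = 12960 := by decide +kernel
  simp only [pushB, Matrix.mul_sub, Matrix.sub_mul, Matrix.mul_add, Matrix.add_mul,
    Matrix.smul_mul, Matrix.mul_smul, ← Matrix.mul_kronecker_mul, Matrix.one_mul, Matrix.mul_one,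
    Matrix.trace_sub, Matrix.trace_add, Matrix.trace_smul, Matrix.trace_kronecker, h1, h2, h3,
    h4, h5, h6, h7, h8, h9, Matrix.trace_one, smul_eq_mul]
  ring

end traces

/-- Clearing denominators. -/
lemma exists_den {ι κ : Type*} [Fintype ι] [Fintype κ] (M : Matrix ι κ ℚ) :
    ∃ (d : ℕ) (M₀ : Matrix ι κ ℤ), 0 < d ∧ M₀.map (Int.cast : ℤ → ℚ) = (d : ℚ) • M := by
  refine ⟨∏ i, ∏ j, (M i j).den,
    Matrix.of fun i j => (M i j).num * ((∏ i, ∏ j, (M i j).den) / (M i j).den : ℕ), ?_, ?_⟩
  · exact Finset.prod_pos fun i _ => Finset.prod_pos fun j _ => (M i j).den_pos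
  · ext i j
    have hdvd : (M i j).den ∣ ∏ i, ∏ j, (M i j).den :=
      (Finset.dvd_prod_of_mem (fun j => (M i j).den) (Finset.mem_univ j)).trans
        (Finset.dvd_prod_of_mem (fun i => ∏ j, (M i j).den) (Finset.mem_univ i))
    obtain ⟨q, hq⟩ := hdvd
    rw [Matrix.map_apply, Matrix.smul_apply, Matrix.of_apply, hq,
      Nat.mul_div_cancel_left _ (M i j).den_pos, smul_eq_mul]
    push_cast
    nth_rewrite 3 [← Rat.num_div_den (M i j)]
    have : ((M i j).den : ℚ) ≠ 0 := by exact_mod_cast (M i j).den_pos.ne'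
    field_simp

lemma cubic_scale {τ : Type*} [Fintype τ] [DecidableEq τ] (B : Matrix τ τ ℚ) (s : ℚ)
    (hs : s ≠ 0) (h : B * (B + s • 1) * (B + (2 * s) • 1) = 0) :
    ((-s⁻¹) • B) * ((-s⁻¹) • B - 1) * ((-s⁻¹) • B - 2) = 0 := by
  have h2 : (2 : Matrix τ τ ℚ) = (2 : ℚ) • 1 := by
    rw [ofNat_smul_eq_nsmul, nsmul_one, Nat.cast_ofNat]
  have e1 : (-s⁻¹) • B - 1 = (-s⁻¹) • (B + s • 1) := by
    rw [smul_add, smul_smul, neg_mul, inv_mul_cancel₀ hs]
    module
  have e2 : (-s⁻¹) • B - 2 = (-s⁻¹) • (B + (2 * s) • 1) := by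
    rw [h2, smul_add, smul_smul, show -s⁻¹ * (2 * s) = -2 by field_simp]
    module
  rw [e1, e2, Matrix.smul_mul, Matrix.mul_smul, Matrix.mul_smul, Matrix.smul_mul,
    Matrix.smul_mul, h, smul_zero, smul_zero, smul_zero]

end Pool.Agent.L5helper79.PCR
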