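import Mathlib
import Pool.Agent.L5helper79.PCR.Proj

set_option autoImplicit false

/-!
The projector form of the reduction: construction of the projector.
-/

open Finset Polynomial Pool.Agent.W432.PC NumberField
open scoped Kronecker

namespace Pool.Agent.L5helper79.PCR

/-- The diagonal matrix with the entries `0, -2 m, -4 m`, each repeated `2 R` times. -/
def diagM (R m : ℕ) : Matrix (Fin 3 × Fin (2 * R)) (Fin 3 × Fin (2 * R)) ℤ :=
  Matrix.diagonal fun x => -(2 * (m : ℤ) * ((x.1 : ℕ) : ℤ))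

lemma conj_rat (R n : ℕ) (hn : 0 < n) (B C : Matrix (Fin 3 × Fin (2 * R)) (Fin 3 × Fin (2 * R)) ℚ)
    (hB : B * (B + (36 * n : ℚ) • 1) * (B + (2 * (36 * n) : ℚ) • 1) = 0)
    (hC : C * (C + (54 * n : ℚ) • 1) = 0)
    (tB : B.trace = -(216 * n * R)) (tB2 : (B * B).trace = 12960 * n ^ 2 * R)
    (tC : C.trace = -(162 * n * R)) :
    ∃ G P : Matrix (Fin 3 × Fin (2 * R)) (Fin 3 × Fin (2 * R)) ℚ, G.det ≠ 0 ∧
      P * P = P ∧ P.trace = 3 * R ∧
      B * G = G * ((-(36 * n : ℚ)) • Matrix.diagonal fun x => ((x.1 : ℕ) : ℚ)) ∧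
      C * G = G * ((-(54 * n : ℚ)) • P) := by
  have hn' : (n : ℚ) ≠ 0 := by exact_mod_cast hn.ne'
  have h36 : (36 * n : ℚ) ≠ 0 := mul_ne_zero (by norm_num) hn'
  have h54 : (54 * n : ℚ) ≠ 0 := mul_ne_zero (by norm_num) hn'
  obtain ⟨G, hG, hAG⟩ := exists_diag R ((-(36 * n : ℚ)⁻¹) • B) (cubic_scale B _ h36 hB)
    (by
      rw [Matrix.trace_smul, tB, smul_eq_mul]
      field_simp
      ring)
    (by
      rw [Matrix.smul_mul, Matrix.mul_smul, Matrix.trace_smul, Matrix.trace_smul, tB2,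
        smul_eq_mul, smul_eq_mul]
      field_simp
      ring)
  have hu : IsUnit G.det := isUnit_iff_ne_zero.2 hG
  refine ⟨G, (-(54 * n : ℚ)⁻¹) • (G⁻¹ * C * G), hG, ?_, ?_, ?_, ?_⟩
  · have hCC : C * C = (-(54 * n : ℚ)) • C := by
      rw [Matrix.mul_add, Matrix.mul_smul, Matrix.mul_one] at hC
      rw [neg_smul]
      exact eq_neg_of_add_eq_zero_left hC
    have e1 : G⁻¹ * C * G * (G⁻¹ * C * G) = G⁻¹ * (C * C) * G := by
      calc G⁻¹ * C * G * (G⁻¹ * C * G) = G⁻¹ * C * (G * G⁻¹) * C * G := by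
            simp only [Matrix.mul_assoc]
        _ = G⁻¹ * (C * C) * G := by
            rw [Matrix.mul_nonsing_inv _ hu, Matrix.mul_one, Matrix.mul_assoc G⁻¹ C C]
    rw [Matrix.smul_mul, Matrix.mul_smul, e1, hCC, Matrix.mul_smul, Matrix.smul_mul, smul_smul,
      smul_smul]
    congr 1
    field_simp
  · rw [Matrix.trace_smul, Matrix.trace_mul_comm, ← Matrix.mul_assoc,
      Matrix.mul_nonsing_inv _ hu, Matrix.one_mul, tC, smul_eq_mul]
    field_simp
    ring
  · rw [Matrix.mul_smul, ← hAG, Matrix.smul_mul, smul_smul]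
    rw [show -(36 * n : ℚ) * -(36 * n : ℚ)⁻¹ = 1 by field_simp, one_smul]
  · rw [smul_smul, show -(54 * n : ℚ) * -(54 * n : ℚ)⁻¹ = 1 by field_simp, one_smul,
      ← Matrix.mul_assoc, ← Matrix.mul_assoc, Matrix.mul_nonsing_inv _ hu, Matrix.one_mul]

/-- The residues of the push-forward are simultaneously conjugate to a fixed diagonal matrix and
a multiple of a projector. -/
theorem exists_projector {ι : Type*} [Fintype ι] [DecidableEq ι] (R n : ℕ) (hn : 0 < n)
    (hR : Fintype.card ι = R) (b c : Matrix ι ι ℤ) (e : (Fin 3 × Fin (2 * R)) ≃ ι × Fin 6) :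
    ∃ (m : ℕ) (P G : Matrix (Fin 3 × Fin (2 * R)) (Fin 3 × Fin (2 * R)) ℤ), 0 < m ∧
      P * P = m • P ∧ P.trace = 3 * R * m ∧ G.det ≠ 0 ∧
      (6 * m) • ((pushB (n : ℤ) b c).submatrix e e * G) = (108 * n) • (G * diagM R m) ∧
      (6 * m) • ((pushC (n : ℤ) b c).submatrix e e * G) = (108 * n) • (G * ((-3 : ℤ) • P)) := by
  set B₀ := (pushB (n : ℤ) b c).submatrix e e with hB₀
  set C₀ := (pushC (n : ℤ) b c).submatrix e e with hC₀
  have hre : ∀ M : Matrix (ι × Fin 6) (ι × Fin 6) ℤ,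
      Matrix.reindexAlgEquiv ℤ ℤ e.symm M = M.submatrix e e := fun M => rfl
  have relB : B₀ * (B₀ + (36 * (n : ℤ)) • 1) * (B₀ + (72 * (n : ℤ)) • 1) = 0 := by
    have := congrArg (Matrix.reindexAlgEquiv ℤ ℤ e.symm) (pushB_rel (n : ℤ) b c)
    rw [map_mul, map_mul, map_add, map_add, map_zsmul, map_zsmul, map_one, map_zero,
      hre] at this
    exact this
  have relC : C₀ * (C₀ + (54 * (n : ℤ)) • 1) = 0 := by
    have := congrArg (Matrix.reindexAlgEquiv ℤ ℤ e.symm) (pushC_rel (n : ℤ) b c)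
    rw [map_mul, map_add, map_zsmul, map_one, map_zero, hre] at this
    exact this
  have tr : ∀ M : Matrix (ι × Fin 6) (ι × Fin 6) ℤ, (M.submatrix e e).trace = M.trace := by
    intro M
    simp only [Matrix.trace, Matrix.diag_apply, Matrix.submatrix_apply]
    exact e.sum_comp fun i => M i i
  have tB : B₀.trace = -(216 * (n : ℤ) * R) := by rw [hB₀, tr, trace_pushB, hR]
  have tC : C₀.trace = -(162 * (n : ℤ) * R) := by rw [hC₀, tr, trace_pushC, hR]
  have tB2 : (B₀ * B₀).trace = 12960 * (n : ℤ) ^ 2 * R := by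
    rw [hB₀, Matrix.submatrix_mul_equiv, tr, trace_pushB_sq, hR]
  set φ := (Int.castRingHom ℚ).mapMatrix (m := Fin 3 × Fin (2 * R)) with hφ
  have hφs : ∀ (a : ℤ) (M), φ (a • M) = (a : ℚ) • φ M := by
    intro a M
    ext i j
    rw [hφ, RingHom.mapMatrix_apply, RingHom.mapMatrix_apply, Matrix.map_apply,
      Matrix.smul_apply, Matrix.smul_apply, Matrix.map_apply, smul_eq_mul, smul_eq_mul, map_mul]
    simp
  have hφt : ∀ M, (φ M).trace = (M.trace : ℚ) := by
    intro M
    simp [hφ, Matrix.trace]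
  obtain ⟨G, P, hG, hPP, hPt, hBG, hCG⟩ := conj_rat R n hn (φ B₀) (φ C₀)
    (by
      have := congrArg φ relB
      rw [map_mul, map_mul, map_add, map_add, hφs, hφs, map_one, map_zero] at this
      push_cast at this
      rw [show (2 * (36 * n) : ℚ) = 72 * n by ring]
      exact this)
    (by
      have := congrArg φ relC
      rw [map_mul, map_add, hφs, map_one, map_zero] at this
      push_cast at this
      exact this)
    (by rw [hφt, tB]; push_cast; ring)
    (by rw [← map_mul, hφt, tB2]; push_cast; ring)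
    (by rw [hφt, tC]; push_cast; ring)
  obtain ⟨g, G₀, hg, hG₀⟩ := exists_den G
  obtain ⟨m, P₀, hm, hP₀⟩ := exists_den P
  have hinj : ∀ M M' : Matrix (Fin 3 × Fin (2 * R)) (Fin 3 × Fin (2 * R)) ℤ, φ M = φ M' →
      M = M' := by
    intro M M' h
    ext i j
    have := congrFun (congrFun h i) j
    simpa [hφ] using this
  have hφG : φ G₀ = (g : ℚ) • G := hG₀
  have hφP : φ P₀ = (m : ℚ) • P := hP₀
  have hφn : ∀ (a : ℕ) (M), φ (a • M) = (a : ℚ) • φ M := by
    intro a M
    ext i j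
    rw [hφ, RingHom.mapMatrix_apply, RingHom.mapMatrix_apply, Matrix.map_apply,
      Matrix.smul_apply, Matrix.smul_apply, Matrix.map_apply, smul_eq_mul, nsmul_eq_mul, map_mul]
    simp
  have hφd : φ (diagM R m) = (-(2 * m : ℚ)) • Matrix.diagonal fun x => ((x.1 : ℕ) : ℚ) := by
    ext i j
    rw [hφ, RingHom.mapMatrix_apply, Matrix.map_apply, diagM, Matrix.smul_apply]
    rcases eq_or_ne i j with rfl | hij
    · simp
    · simp [Matrix.diagonal_apply_ne _ hij]
  have hg' : (g : ℚ) ≠ 0 := by exact_mod_cast hg.ne'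
  refine ⟨m, P₀, G₀, hm, ?_, ?_, ?_, ?_, ?_⟩
  · apply hinj
    rw [map_mul, hφn, hφP, Matrix.smul_mul, Matrix.mul_smul, hPP]
  · have : (P₀.trace : ℚ) = ((3 * R * m : ℤ) : ℚ) := by
      rw [← hφt, hφP, Matrix.trace_smul, hPt, smul_eq_mul]
      push_cast
      ring
    exact_mod_cast this
  · intro h0
    have h1 : (φ G₀).det = 0 := by
      rw [hφ, ← RingHom.map_det, h0, map_zero]
    rw [hφG, Matrix.det_smul] at h1
    exact (mul_ne_zero (pow_ne_zero _ hg') hG) h1
  · apply hinj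
    rw [hφn, hφn, map_mul, map_mul, hφG, hφd, Matrix.mul_smul, hBG, Matrix.smul_mul,
      Matrix.mul_smul, Matrix.mul_smul, smul_smul, smul_smul, smul_smul, smul_smul]
    congr 1
    push_cast
    ring
  · apply hinj
    rw [hφn, hφn, map_mul, map_mul, hφG, hφs, hφP, Matrix.mul_smul, hCG, Matrix.smul_mul,
      Matrix.mul_smul, Matrix.mul_smul, Matrix.mul_smul, smul_smul, smul_smul, smul_smul,
      smul_smul, smul_smul]
    congr 1
    push_cast
    ring

end Pool.Agent.L5helper79.PCR
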