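import Mathlib
import Pool.Agent.L5helper79.PCR.Proj2

set_option autoImplicit false

/-!
The projector form of the reduction: transfer of the `p`-curvature and of algebraic solutions.
-/

open Finset Polynomial Pool.Agent.W432.PC NumberField

namespace Pool.Agent.L5helper79.PCR

/-- The diagonal matrix with the entries `0, -1, -2`, each repeated `2 R` times. -/
def diagD (R : ℕ) : Matrix (Fin 3 × Fin (2 * R)) (Fin 3 × Fin (2 * R)) ℤ :=
  Matrix.diagonal fun x => -((x.1 : ℕ) : ℤ)

/-- The `p`-curvature of the system over `ℚ` with the residues `diagD R / 3` at `0` and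
`-P / (2 m)` at `1` vanishes for all but finitely many primes `p`. -/
def ProjPCurv (R m : ℕ) (P : Matrix (Fin 3 × Fin (2 * R)) (Fin 3 × Fin (2 * R)) ℤ) : Prop :=
  {p : ℕ | ∃ _ : Fact p.Prime, ¬ PCurvZero (redMat (Int.castRingHom (ZMod p)) 3 (diagD R))
    (redMat (Int.castRingHom (ZMod p)) (2 * m) (-P))}.Finite

/-- The system with the residues `diagD R / 3` at `0` and `-P / (2 m)` at `1` has a full set of
algebraic solutions. -/
def ProjAlgSol (R m : ℕ) (P : Matrix (Fin 3 × Fin (2 * R)) (Fin 3 × Fin (2 * R)) ℤ) : Prop :=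
  AlgSol (redMat (Int.castRingHom ℂ) 3 (diagD R)) (redMat (Int.castRingHom ℂ) (2 * m) (-P))

lemma red_rel {k : Type*} [Field k] {τ : Type*} [Fintype τ] [DecidableEq τ] (x y y' : ℕ)
    (B G D D' : Matrix τ τ ℤ) (h : x • (B * G) = y • (G * D)) (u : ℕ)
    (hD : (u : ℤ) • D' = D) (hy : (y : k) ≠ 0) (hy' : (y' : k) ≠ 0)
    (hx : x = u * y') (hu : (u : k) ≠ 0) :
    redMat (Int.castRingHom k) y B * G.map (Int.castRingHom k) =
      G.map (Int.castRingHom k) * redMat (Int.castRingHom k) y' D' := by
  subst hx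
  subst hD
  have e1 : ∀ (z : ℕ) (M : Matrix τ τ ℤ), redMat (Int.castRingHom k) z M =
      (z : k)⁻¹ • M.map (Int.castRingHom k) := by
    intro z M
    ext i j
    simp only [redMat, Matrix.of_apply, Matrix.smul_apply, Matrix.map_apply, smul_eq_mul]
    ring
  have e2 := congrArg (fun M : Matrix τ τ ℤ => M.map (Int.castRingHom k)) h
  have e3 : ∀ (a : ℕ) (M : Matrix τ τ ℤ), (a • M).map (Int.castRingHom k) =
      (a : k) • M.map (Int.castRingHom k) := by
    intro a M
    ext i j
    rw [Matrix.map_apply, Matrix.smul_apply, Matrix.smul_apply, Matrix.map_apply, smul_eq_mul,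
      nsmul_eq_mul, map_mul]
    simp
  have e4 : ∀ (a : ℕ) (M : Matrix τ τ ℤ), ((a : ℤ) • M).map (Int.castRingHom k) =
      (a : k) • M.map (Int.castRingHom k) := by
    intro a M
    rw [natCast_zsmul, e3]
  simp only [e3, Matrix.map_mul, e4, Matrix.mul_smul] at e2
  rw [e1, e1, Matrix.smul_mul, Matrix.mul_smul]
  have e5 : (B.map (Int.castRingHom k) * G.map (Int.castRingHom k) : Matrix τ τ k) =
      ((u * y' : ℕ) : k)⁻¹ • (y : k) • (u : k) •
        (G.map (Int.castRingHom k) * D'.map (Int.castRingHom k)) := by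
    rw [← e2, smul_smul, inv_mul_cancel₀ (by push_cast; exact mul_ne_zero hu hy'), one_smul]
  rw [e5, smul_smul, smul_smul, smul_smul]
  congr 1
  push_cast
  field_simp

/-- The system over a number field and the associated system over `ℚ`, projector form. -/
theorem pointwise_proj (K : Type) [Field K] [NumberField K] (r n : ℕ) (hn : 0 < n)
    (b c : Matrix (Fin r) (Fin r) (𝓞 K)) :
    ∃ (m : ℕ) (P : Matrix (Fin 3 × Fin (2 * (r * Module.finrank ℚ K)))
        (Fin 3 × Fin (2 * (r * Module.finrank ℚ K))) ℤ),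
      0 < m ∧ P * P = m • P ∧ P.trace = 3 * (r * Module.finrank ℚ K : ℕ) * m ∧
      (PCurvK n b c → ProjPCurv (r * Module.finrank ℚ K) m P) ∧
      ∀ σ : K →+* ℂ, ProjAlgSol (r * Module.finrank ℚ K) m P →
        AlgSol (redMat (σ.comp (algebraMap (𝓞 K) K)) n b)
          (redMat (σ.comp (algebraMap (𝓞 K) K)) n c) := by
  classical
  set R := r * Module.finrank ℚ K with hRdef
  set ω := RingOfIntegers.basis K with hω
  have hcardι : Fintype.card (Fin r × Module.Free.ChooseBasisIndex ℤ (𝓞 K)) = R := by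
    rw [Fintype.card_prod, Fintype.card_fin, hRdef, ← RingOfIntegers.rank K,
      Module.finrank_eq_card_chooseBasisIndex]
  have hcard : Fintype.card (Fin 3 × Fin (2 * R)) =
      Fintype.card ((Fin r × Module.Free.ChooseBasisIndex ℤ (𝓞 K)) × Fin 6) := by
    rw [Fintype.card_prod, Fintype.card_prod _ (Fin 6), hcardι, Fintype.card_fin,
      Fintype.card_fin, Fintype.card_fin]
    ring
  set e := Fintype.equivOfCardEq hcard with he
  set b₁ := res ω b with hb₁
  set c₁ := res ω c with hc₁
  obtain ⟨m, P, G, hm, hPP, hPt, hG, hGB, hGC⟩ := exists_projector R n hn hcardι b₁ c₁ e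
  have hD : ((2 * m : ℕ) : ℤ) • diagD R = diagM R m := by
    ext i j
    rw [Matrix.smul_apply, diagM, diagD]
    rcases eq_or_ne i j with rfl | hij
    · rw [Matrix.diagonal_apply_eq, Matrix.diagonal_apply_eq, smul_eq_mul]
      push_cast
      ring
    · rw [Matrix.diagonal_apply_ne _ hij, Matrix.diagonal_apply_ne _ hij, smul_zero]
  have hP3 : ((3 : ℕ) : ℤ) • (-P) = (-3 : ℤ) • P := by
    rw [smul_neg, ← neg_smul]
    rfl
  refine ⟨m, P, hm, hPP, hPt, ?_, ?_⟩
  · intro h
    refine ((pcurvQ_push n b₁ c₁ hn (pcurvQ_res n b c h)).union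
      (Set.finite_le_nat (108 * n * m + G.det.natAbs))).subset ?_
    rintro p ⟨hp, hP⟩
    by_cases hle : p ≤ 108 * n * m + G.det.natAbs
    · exact Or.inr hle
    · left
      refine ⟨hp, fun hcon => hP ?_⟩
      have hne : ∀ x : ℕ, 0 < x → x < p → (x : ZMod p) ≠ 0 := by
        intro x hx1 hx2 h0
        rw [ZMod.natCast_eq_zero_iff] at h0
        exact absurd (Nat.le_of_dvd hx1 h0) (by omega)
      have hnm : n ≤ n * m := Nat.le_mul_of_pos_right n hm
      have hmn : m ≤ n * m := Nat.le_mul_of_pos_left m hn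
      have h108 : 108 * n * m = 108 * (n * m) := by ring
      have h1 := pCurvZero_submatrix
        (redMat (Int.castRingHom (ZMod p)) (108 * n) (pushB (n : ℤ) b₁ c₁))
        (redMat (Int.castRingHom (ZMod p)) (108 * n) (pushC (n : ℤ) b₁ c₁)) e hcon
      refine pCurvZero_gauge _ _ _ _ (G.map (Int.castRingHom (ZMod p))) ?_ ?_ ?_ h1
      · exact red_rel (6 * m) (108 * n) 3 _ G _ _ hGB (2 * m) hD
          (hne _ (by omega) (by omega)) (by exact_mod_cast hne 3 (by omega) (by omega))
          (by ring) (hne _ (by omega) (by omega))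
      · exact red_rel (6 * m) (108 * n) (2 * m) _ G _ _ hGC 3 hP3
          (hne _ (by omega) (by omega)) (hne _ (by omega) (by omega))
          (by ring) (by exact_mod_cast hne 3 (by omega) (by omega))
      · have h2 : (G.map (Int.castRingHom (ZMod p))).det = Int.castRingHom (ZMod p) G.det := by
          rw [RingHom.map_det]; rfl
        rw [h2]
        intro h0
        rw [eq_intCast, ZMod.intCast_zmod_eq_zero_iff_dvd] at h0
        have h3 := Int.natAbs_dvd_natAbs.2 h0
        rw [Int.natAbs_natCast] at h3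
        have h4 := Nat.le_of_dvd (Int.natAbs_pos.2 hG) h3
        omega
  · intro σ h
    have hne : ∀ x : ℕ, 0 < x → (x : ℂ) ≠ 0 := fun x hx => by exact_mod_cast hx.ne'
    have h1 : AlgSol ((redMat (Int.castRingHom ℂ) (108 * n) (pushB (n : ℤ) b₁ c₁)).submatrix e e)
        ((redMat (Int.castRingHom ℂ) (108 * n) (pushC (n : ℤ) b₁ c₁)).submatrix e e) := by
      refine algSol_gauge _ _ _ _ (G.map (Int.castRingHom ℂ)) ?_ ?_ ?_ h
      · exact red_rel (6 * m) (108 * n) 3 _ G _ _ hGB (2 * m) hD
          (hne _ (by omega)) (by exact_mod_cast hne 3 (by omega))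
          (by ring) (hne _ (by omega))
      · exact red_rel (6 * m) (108 * n) (2 * m) _ G _ _ hGC 3 hP3
          (hne _ (by omega)) (hne _ (by omega))
          (by ring) (by exact_mod_cast hne 3 (by omega))
      · have h2 : (G.map (Int.castRingHom ℂ)).det = Int.castRingHom ℂ G.det := by
          rw [RingHom.map_det]; rfl
        rw [h2, eq_intCast]
        exact_mod_cast hG
    have h2 := algSol_submatrix _ _ e h1
    exact algSol_res ω (σ.comp (algebraMap (𝓞 K) K)) n b c (algSol_push n hn b₁ c₁ h2)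

end Pool.Agent.L5helper79.PCR
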